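import Pool.Agent.Lib_helper44.G4.Defs

/-! Block HATC (helper38), after helper60's RC block HATC. -/

namespace Pool.Agent.G4

open Complex MeasureTheory Filter Topology
open scoped ContDiff

/-- Fourier transform of a complex weight -/
noncomputable def HATC_c (θ : ℝ → ℂ) (u : ℝ) : ℂ := ∫ t : ℝ, θ t * cexp (t * u * I)

theorem HATC_norm (θ : ℝ → ℂ) (t u : ℝ) : ‖θ t * cexp (t * u * I)‖ = ‖θ t‖ := by
  rw [norm_mul, show (t : ℂ) * u * I = ((t * u : ℝ) : ℂ) * I by push_cast; ring,
    Complex.norm_exp_ofReal_mul_I, mul_one]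

theorem HATC_int {θ : ℝ → ℂ} (hθ : Integrable θ) (u : ℝ) :
    Integrable (fun t : ℝ => θ t * cexp (t * u * I)) := by
  refine hθ.norm.mono' ?_ (Eventually.of_forall fun t => (HATC_norm θ t u).le)
  exact hθ.aestronglyMeasurable.mul
    (by fun_prop : Continuous fun t : ℝ => cexp (t * u * I)).aestronglyMeasurable

theorem HATC_le (θ : ℝ → ℂ) (u : ℝ) : ‖HATC_c θ u‖ ≤ ∫ t, ‖θ t‖ := by
  unfold HATC_c
  refine (norm_integral_le_integral_norm _).trans (le_of_eq ?_)
  exact integral_congr_ae (Eventually.of_forall fun t => HATC_norm θ t u)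

theorem HATC_cont {θ : ℝ → ℂ} (hθ : Integrable θ) : Continuous (HATC_c θ) := by
  unfold HATC_c
  refine continuous_of_dominated (bound := fun t => ‖θ t‖) (fun u => ?_) (fun u => ?_) hθ.norm ?_
  · exact (HATC_int hθ u).aestronglyMeasurable
  · exact Eventually.of_forall fun t => (HATC_norm θ t u).le
  · exact Eventually.of_forall fun t => by fun_prop

theorem HATC_deriv {θ θ' : ℝ → ℂ} (h : ∀ t, HasDerivAt θ (θ' t) t) (h1 : Integrable θ)
    (h2 : Integrable θ') (u : ℝ) : HATC_c θ' u = -(u * I) * HATC_c θ u := by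
  have hv : ∀ t : ℝ, HasDerivAt (fun t : ℝ => cexp (t * u * I)) (u * I * cexp (t * u * I)) t := by
    intro t
    have h3 : HasDerivAt (fun t : ℝ => (t : ℂ) * u * I) (1 * u * I) t :=
      ((Complex.ofRealCLM.hasDerivAt (x := t)).mul_const (u : ℂ)).mul_const I
    refine h3.cexp.congr_deriv ?_
    ring
  have h3 := integral_mul_deriv_eq_deriv_mul_of_integrable (u := θ) (v := fun t : ℝ => cexp (t * u * I))
    (u' := θ') (v' := fun t : ℝ => u * I * cexp (t * u * I)) (fun t _ => h t) (fun t _ => hv t) ?_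
    (HATC_int h2 u) (HATC_int h1 u)
  · unfold HATC_c
    have h4 : ∫ t : ℝ, θ t * (u * I * cexp (t * u * I)) = u * I * ∫ t : ℝ, θ t * cexp (t * u * I) := by
      rw [← integral_const_mul]
      exact integral_congr_ae (Eventually.of_forall fun t => by simp only; ring)
    rw [h4] at h3
    linear_combination h3
  · have h4 := (HATC_int h1 u).const_mul (u * I)
    refine h4.congr (Eventually.of_forall fun t => ?_)
    simp only [Pi.mul_apply]
    ring


theorem hat_decay_pr {w : ℝ → ℝ} (hw : ContDiff ℝ 2 w) (hwc : HasCompactSupport w) :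
    ∃ C : ℝ, ∀ u, ‖hatw w u‖ ≤ C / (1 + u ^ 2) := by
  set θ : ℝ → ℂ := fun t => (w t : ℂ) with hθdef
  have hθ : ContDiff ℝ 2 θ := Complex.ofRealCLM.contDiff.comp hw
  have hc : HasCompactSupport θ := hwc.comp_left (g := fun x : ℝ => (x : ℂ)) (by simp)
  have hd1 : ContDiff ℝ 1 (deriv θ) := by
    have h := hθ
    rw [show (2 : WithTop ℕ∞) = 1 + 1 by norm_num, contDiff_succ_iff_deriv] at h
    exact h.2.2
  have hd2 : Continuous (deriv (deriv θ)) := hd1.continuous_deriv le_rfl
  have i0 : Integrable θ := hθ.continuous.integrable_of_hasCompactSupport hc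
  have i1 : Integrable (deriv θ) :=
    (hd1.continuous).integrable_of_hasCompactSupport hc.deriv
  have i2 : Integrable (deriv (deriv θ)) := hd2.integrable_of_hasCompactSupport hc.deriv.deriv
  have e1 : ∀ t, HasDerivAt θ (deriv θ t) t := fun t =>
    (hθ.differentiable (by norm_num) t).hasDerivAt
  have e2 : ∀ t, HasDerivAt (deriv θ) (deriv (deriv θ) t) t := fun t =>
    (hd1.differentiable one_ne_zero t).hasDerivAt
  refine ⟨(∫ t, ‖θ t‖) + ∫ t, ‖deriv (deriv θ) t‖, fun u => ?_⟩
  rw [le_div_iff₀ (by positivity)]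
  have h1 := HATC_le θ u
  have h2 := HATC_le (deriv (deriv θ)) u
  rw [HATC_deriv e2 i1 i2, HATC_deriv e1 i0 i1, ← mul_assoc, norm_mul] at h2
  have h3 : ‖-((u : ℂ) * I) * -(u * I)‖ = u ^ 2 := by
    rw [show -((u : ℂ) * I) * -(u * I) = -((u ^ 2 : ℝ) : ℂ) by
      push_cast
      linear_combination (u : ℂ) ^ 2 * I_sq]
    rw [norm_neg, Complex.norm_real, Real.norm_eq_abs, abs_of_nonneg (sq_nonneg u)]
  rw [h3] at h2
  have h4 : hatw w u = HATC_c θ u := rfl
  rw [h4]
  linarith

end Pool.Agent.G4
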