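import Pool.Agent.Lib_helper38.G4.AB
import Pool.Agent.Lib_helper44.G4.Defs

/-! Block DB (helper38): db_summable, db_bound, db_cont, db_mellin. Cites ab_high. -/

namespace Pool.Agent.G4

open Complex MeasureTheory Filter Topology Set

theorem DB_RSB_nonneg {b : ℕ → ℂ} {Cb : ℝ} (hb : RSB b Cb) : 0 ≤ Cb := by
  have h1 := hb 1
  simp at h1
  exact (by positivity : 0 ≤ ‖b 1‖ ^ 2).trans h1

/-- pointwise bound of the kernel -/
theorem DB_ker {K : ℝ → ℂ} {A C : ℝ} (h : ∀ u : ℝ, ‖K u‖ ≤ C * Real.exp (-A * u)) (u : ℝ) {n : ℕ}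
    (hn : 1 ≤ n) : ‖K (u + Real.log n)‖ ≤ C * Real.exp (-A * u) * (n : ℝ) ^ (-A) := by
  have hn0 : (0 : ℝ) < n := by exact_mod_cast hn
  have h1 := h (u + Real.log n)
  have h2 : Real.exp (-A * (u + Real.log n)) = Real.exp (-A * u) * (n : ℝ) ^ (-A) := by
    rw [Real.rpow_def_of_pos hn0, ← Real.exp_add]
    congr 1
    ring
  rw [h2, ← mul_assoc] at h1
  exact h1

/-- absolute convergence of `∑ ‖b n‖ n^{-1/2-A}`, with uniform bound -/
theorem DB_abs {A : ℝ} (hA : 1 / 2 < A) (Cb : ℝ) : ∃ C : ℝ, 0 ≤ C ∧ ∀ b : ℕ → ℂ, RSB b Cb →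
    (Summable fun n : ℕ => ‖b n‖ * (n : ℝ) ^ (-1 / 2 - A)) ∧
      ∑' n : ℕ, ‖b n‖ * (n : ℝ) ^ (-1 / 2 - A) ≤ C := by
  obtain ⟨C4, hC4, hhigh⟩ := ab_high_pr (B := A - 1 / 2) (by linarith)
  have hz : Summable (fun n : ℕ => (n : ℝ) ^ (-(A + 1 / 2))) := by
    rw [Real.summable_nat_rpow]
    linarith
  refine ⟨C4 * |Cb| + ∑' n : ℕ, (n : ℝ) ^ (-(A + 1 / 2)), by positivity, fun b hb => ?_⟩
  have hCb := DB_RSB_nonneg hb
  rw [abs_of_nonneg hCb]
  obtain ⟨hsum, htail⟩ := hhigh (fun n => ‖b n‖ ^ 2) Cb (fun n => by positivity) hb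
  have hle : ∀ n : ℕ, ‖b n‖ * (n : ℝ) ^ (-1 / 2 - A) ≤
      ‖b n‖ ^ 2 * (n : ℝ) ^ (-1 - (A - 1 / 2)) + (n : ℝ) ^ (-(A + 1 / 2)) := by
    intro n
    rcases Nat.eq_zero_or_pos n with hn | hn
    · subst hn
      rw [Nat.cast_zero, Real.zero_rpow (by linarith), Real.zero_rpow (by linarith),
        Real.zero_rpow (by linarith)]
      simp
    have hn0 : (0 : ℝ) < n := by exact_mod_cast hn
    set s : ℝ := (n : ℝ) ^ (-(A + 1 / 2) / 2) with hs
    have hs0 : 0 < s := by positivity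
    have e1 : (n : ℝ) ^ (-(A + 1 / 2)) = s ^ 2 := by
      rw [hs, ← Real.rpow_natCast, ← Real.rpow_mul hn0.le]
      congr 1
      push_cast
      ring
    have e2 : (n : ℝ) ^ (-1 / 2 - A) = s ^ 2 := by
      rw [← e1]
      congr 1
      ring
    have e3 : (n : ℝ) ^ (-1 - (A - 1 / 2)) = s ^ 2 := by
      rw [← e1]
      congr 1
      ring
    rw [e1, e2, e3]
    have h1 : 0 ≤ s ^ 2 := by positivity
    nlinarith [sq_nonneg (‖b n‖ - 1), norm_nonneg (b n), mul_nonneg h1 (sq_nonneg (‖b n‖ - 1))]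
  have hs := Summable.of_nonneg_of_le (fun n => by positivity) hle (hsum.add hz)
  refine ⟨hs, ?_⟩
  have h1 : ∑' n : ℕ, ‖b n‖ ^ 2 * (n : ℝ) ^ (-1 - (A - 1 / 2)) ≤ C4 * Cb := by
    have h2 := htail 1 le_rfl
    rw [Nat.cast_one, Real.one_rpow, mul_one] at h2
    refine le_trans (le_of_eq ?_) h2
    refine tsum_congr fun n => ?_
    split_ifs with h
    · rfl
    · have : n = 0 := by omega
      subst this
      rw [Nat.cast_zero, Real.zero_rpow (by linarith), mul_zero]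
  calc ∑' n : ℕ, ‖b n‖ * (n : ℝ) ^ (-1 / 2 - A)
      ≤ ∑' n : ℕ, (‖b n‖ ^ 2 * (n : ℝ) ^ (-1 - (A - 1 / 2)) + (n : ℝ) ^ (-(A + 1 / 2))) :=
        hs.tsum_le_tsum hle (hsum.add hz)
    _ = (∑' n : ℕ, ‖b n‖ ^ 2 * (n : ℝ) ^ (-1 - (A - 1 / 2))) + ∑' n : ℕ, (n : ℝ) ^ (-(A + 1 / 2)) :=
        hsum.tsum_add hz
    _ ≤ _ := by linarith

theorem DB_sqrt {n : ℕ} (hn : 1 ≤ n) : (√(n : ℝ))⁻¹ = (n : ℝ) ^ (-1 / 2 : ℝ) := by
  have hn0 : (0 : ℝ) < n := by exact_mod_cast hn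
  rw [Real.sqrt_eq_rpow, ← Real.rpow_neg hn0.le]
  congr 1
  ring

/-- the norm of the terms -/
theorem DB_term {K : ℝ → ℂ} {A C : ℝ} (h : ∀ u : ℝ, ‖K u‖ ≤ C * Real.exp (-A * u))
    (hA : 1 / 2 < A) (hC : 0 ≤ C) (b : ℕ → ℂ) (u : ℝ) (n : ℕ) :
    ‖b n‖ * (√(n : ℝ))⁻¹ * ‖K (u + Real.log n)‖ ≤
      C * Real.exp (-A * u) * (‖b n‖ * (n : ℝ) ^ (-1 / 2 - A)) := by
  rcases Nat.eq_zero_or_pos n with hn | hn
  · subst hn
    simp
    positivity
  have hn0 : (0 : ℝ) < n := by exact_mod_cast hn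
  rw [DB_sqrt hn]
  have h1 := mul_le_mul_of_nonneg_left (DB_ker h u hn)
    (by positivity : 0 ≤ ‖b n‖ * (n : ℝ) ^ (-1 / 2 : ℝ))
  refine h1.trans (le_of_eq ?_)
  rw [show (-1 / 2 - A) = -1 / 2 + -A by ring, Real.rpow_add hn0]
  ring

theorem DB_ev (x : Ix) (n : ℕ) : ‖ev x n‖ ≤ 1 := by
  unfold ev
  exact DirichletCharacter.norm_le_one _ _

/-- DB: absolute convergence -/
theorem db_summable_pr {κ : ℝ} (hκ : 0 < κ) {K : ℝ → ℂ} (hK : IsKer κ K) {b : ℕ → ℂ} {Cb : ℝ}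
    (hb : RSB b Cb) (u : ℝ) :
    Summable fun n : ℕ => (n : ℝ) * (‖b n‖ * (√(n : ℝ))⁻¹ * ‖K (u + Real.log n)‖) := by
  obtain ⟨C, hC⟩ := hK.le 2 (by linarith)
  have hC0 : ∀ v, ‖K v‖ ≤ |C| * Real.exp (-2 * v) := fun v =>
    (hC v).trans (mul_le_mul_of_nonneg_right (le_abs_self C) (Real.exp_pos _).le)
  obtain ⟨C', -, h1⟩ := DB_abs (A := 1) (by norm_num) Cb
  refine Summable.of_nonneg_of_le (fun n => by positivity) (fun n => ?_)
    ((h1 b hb).1.mul_left (|C| * Real.exp (-2 * u)))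
  have h2 := mul_le_mul_of_nonneg_left
    (DB_term hC0 (by norm_num) (abs_nonneg C) b u n) (Nat.cast_nonneg (α := ℝ) n)
  refine h2.trans (le_of_eq ?_)
  rcases Nat.eq_zero_or_pos n with hn | hn
  · subst hn
    rw [Nat.cast_zero, Real.zero_rpow (by norm_num : (-1 / 2 - (1 : ℝ)) ≠ 0), zero_mul, mul_zero,
      mul_zero]
  have hn0 : (0 : ℝ) < n := by exact_mod_cast hn
  have h3 : (n : ℝ) ^ (-1 / 2 - (1 : ℝ)) = n * (n : ℝ) ^ (-1 / 2 - (2 : ℝ)) := by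
    rw [show (-1 / 2 - (1 : ℝ)) = 1 + (-1 / 2 - 2) by ring, Real.rpow_add hn0, Real.rpow_one]
  rw [h3]
  ring

/-- DB: bound -/
theorem db_bound_pr {κ : ℝ} (hκ : 0 < κ) {K : ℝ → ℂ} (hK : IsKer κ K) (Cb : ℝ) {A : ℝ}
    (hA : 1 / 2 < A) : ∃ C : ℝ, 0 ≤ C ∧ ∀ b : ℕ → ℂ, RSB b Cb → ∀ x u,
      ‖D b K x u‖ ≤ C * Real.exp (-A * u) := by
  obtain ⟨C, hC⟩ := hK.le A (by linarith)
  have hC0 : ∀ v, ‖K v‖ ≤ |C| * Real.exp (-A * v) := fun v =>
    (hC v).trans (mul_le_mul_of_nonneg_right (le_abs_self C) (Real.exp_pos _).le)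
  obtain ⟨C', hC', h1⟩ := DB_abs hA Cb
  refine ⟨|C| * C', by positivity, fun b hb x u => ?_⟩
  obtain ⟨hs, ht⟩ := h1 b hb
  have hsum : HasSum (fun n : ℕ => |C| * Real.exp (-A * u) * (‖b n‖ * (n : ℝ) ^ (-1 / 2 - A)))
      (|C| * Real.exp (-A * u) * ∑' n : ℕ, ‖b n‖ * (n : ℝ) ^ (-1 / 2 - A)) :=
    hs.hasSum.mul_left _
  unfold D
  refine (tsum_of_norm_bounded hsum fun n => ?_).trans ?_
  · rw [norm_mul, norm_mul, norm_mul, Complex.norm_real, Real.norm_eq_abs,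
      abs_of_nonneg (by positivity)]
    have h2 : ‖b n‖ * ‖ev x n‖ * (√(n : ℝ))⁻¹ * ‖K (u + Real.log n)‖ ≤
        ‖b n‖ * (√(n : ℝ))⁻¹ * ‖K (u + Real.log n)‖ := by
      apply mul_le_mul_of_nonneg_right _ (norm_nonneg _)
      apply mul_le_mul_of_nonneg_right _ (by positivity)
      exact mul_le_of_le_one_right (norm_nonneg _) (DB_ev x n)
    exact h2.trans (DB_term hC0 hA (abs_nonneg C) b u n)
  · calc |C| * Real.exp (-A * u) * ∑' n : ℕ, ‖b n‖ * (n : ℝ) ^ (-1 / 2 - A)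
        ≤ |C| * Real.exp (-A * u) * C' := mul_le_mul_of_nonneg_left ht (by positivity)
      _ = |C| * C' * Real.exp (-A * u) := by ring

/-- DB: continuity -/
theorem db_cont_pr {κ : ℝ} (hκ : 0 < κ) {K : ℝ → ℂ} (hK : IsKer κ K) {b : ℕ → ℂ} {Cb : ℝ}
    (hb : RSB b Cb) (x : Ix) : Continuous (D b K x) := by
  obtain ⟨C, hC⟩ := hK.le 1 (by linarith)
  have hC0 : ∀ v, ‖K v‖ ≤ |C| * Real.exp (-1 * v) := fun v =>
    (hC v).trans (mul_le_mul_of_nonneg_right (le_abs_self C) (Real.exp_pos _).le)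
  obtain ⟨C', hC', h1⟩ := DB_abs (A := 1) (by norm_num) Cb
  obtain ⟨hs, -⟩ := h1 b hb
  rw [continuous_iff_continuousAt]
  intro u₀
  have hcont : ContinuousOn (D b K x) (Ioi (u₀ - 1)) := by
    unfold D
    refine continuousOn_tsum (u := fun n : ℕ => |C| * Real.exp (-1 * (u₀ - 1)) *
      (‖b n‖ * (n : ℝ) ^ (-1 / 2 - (1 : ℝ)))) (fun n => ?_) (hs.mul_left _) (fun n u hu => ?_)
    · have := hK.cont
      exact (continuous_const.mul (this.comp (by fun_prop))).continuousOn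
    · rw [norm_mul, norm_mul, norm_mul, Complex.norm_real, Real.norm_eq_abs,
        abs_of_nonneg (by positivity)]
      have h2 : ‖b n‖ * ‖ev x n‖ * (√(n : ℝ))⁻¹ * ‖K (u + Real.log n)‖ ≤
          ‖b n‖ * (√(n : ℝ))⁻¹ * ‖K (u + Real.log n)‖ := by
        apply mul_le_mul_of_nonneg_right _ (norm_nonneg _)
        apply mul_le_mul_of_nonneg_right _ (by positivity)
        exact mul_le_of_le_one_right (norm_nonneg _) (DB_ev x n)
      refine (h2.trans (DB_term hC0 (by norm_num) (abs_nonneg C) b u n)).trans ?_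
      apply mul_le_mul_of_nonneg_right _ (by positivity)
      apply mul_le_mul_of_nonneg_left _ (abs_nonneg C)
      apply Real.exp_le_exp.2
      have : u₀ - 1 < u := hu
      linarith
  exact hcont.continuousAt (isOpen_Ioi.mem_nhds (by simp))

theorem DB_int_abs {δ : ℝ} (hδ : 0 < δ) : Integrable (fun u : ℝ => Real.exp (-δ * |u|)) := by
  have h1 : Integrable (fun u : ℝ => (1 + 2 / δ ^ 2) * (1 + u ^ 2)⁻¹) :=
    integrable_inv_one_add_sq.const_mul _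
  refine h1.mono' (by fun_prop) (ae_of_all _ fun u => ?_)
  rw [Real.norm_eq_abs, Real.abs_exp]
  have h2 : 1 + δ * |u| + (δ * |u|) ^ 2 / 2 ≤ Real.exp (δ * |u|) :=
    Real.quadratic_le_exp_of_nonneg (by positivity)
  have h3 : (δ * |u|) ^ 2 = δ ^ 2 * u ^ 2 := by rw [mul_pow, sq_abs]
  have h4 : 0 ≤ δ * |u| := by positivity
  rw [h3] at h2
  have h5 : Real.exp (-δ * |u|) = (Real.exp (δ * |u|))⁻¹ := by
    rw [← Real.exp_neg]; congr 1; ring
  rw [h5, ← div_eq_mul_inv, le_div_iff₀ (by positivity), inv_mul_le_iff₀ (Real.exp_pos _)]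
  have h6 : (1 + 2 / δ ^ 2) * (1 + δ ^ 2 * u ^ 2 / 2) ≤ (1 + 2 / δ ^ 2) * Real.exp (δ * |u|) :=
    mul_le_mul_of_nonneg_left (by linarith) (by positivity)
  have h7 : (1 + 2 / δ ^ 2) * (1 + δ ^ 2 * u ^ 2 / 2) = 1 + 2 / δ ^ 2 + δ ^ 2 * u ^ 2 / 2 + u ^ 2 := by
    field_simp
    ring
  have h8 : 0 ≤ 2 / δ ^ 2 := by positivity
  have h9 : 0 ≤ δ ^ 2 * u ^ 2 / 2 := by positivity
  rw [mul_comm (Real.exp (δ * |u|))]
  linarith

/-- two-sided exponential decay from bounds at two exponents -/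
theorem DB_two {F : ℝ → ℂ} {A δ C1 C2 : ℝ} (h1 : ∀ u : ℝ, ‖F u‖ ≤ C1 * Real.exp (-(A + δ) * u))
    (h2 : ∀ u : ℝ, ‖F u‖ ≤ C2 * Real.exp (-(A - δ) * u)) (u : ℝ) :
    ‖F u‖ * Real.exp (A * u) ≤ max |C1| |C2| * Real.exp (-δ * |u|) := by
  rcases le_total 0 u with hu | hu
  · rw [abs_of_nonneg hu]
    calc ‖F u‖ * Real.exp (A * u) ≤ C1 * Real.exp (-(A + δ) * u) * Real.exp (A * u) :=
          mul_le_mul_of_nonneg_right (h1 u) (Real.exp_pos _).le
      _ = C1 * Real.exp (-δ * u) := by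
          rw [mul_assoc, ← Real.exp_add]; congr 2; ring
      _ ≤ max |C1| |C2| * Real.exp (-δ * u) :=
          mul_le_mul_of_nonneg_right ((le_abs_self C1).trans (le_max_left _ _))
            (Real.exp_pos _).le
  · rw [abs_of_nonpos hu]
    calc ‖F u‖ * Real.exp (A * u) ≤ C2 * Real.exp (-(A - δ) * u) * Real.exp (A * u) :=
          mul_le_mul_of_nonneg_right (h2 u) (Real.exp_pos _).le
      _ = C2 * Real.exp (-δ * -u) := by
          rw [mul_assoc, ← Real.exp_add]; congr 2; ring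
      _ ≤ max |C1| |C2| * Real.exp (-δ * -u) :=
          mul_le_mul_of_nonneg_right ((le_abs_self C2).trans (le_max_right _ _))
            (Real.exp_pos _).le

theorem DB_norm_mul (K : ℝ → ℂ) (z : ℂ) (u : ℝ) :
    ‖K u * cexp (z * u)‖ = ‖K u‖ * Real.exp (z.re * u) := by
  rw [norm_mul, Complex.norm_exp]
  congr 2
  simp [Complex.mul_re]

theorem DB_integrable {F : ℝ → ℂ} (hF : Continuous F) {z : ℂ} {δ C1 C2 : ℝ} (hδ : 0 < δ)
    (h1 : ∀ u : ℝ, ‖F u‖ ≤ C1 * Real.exp (-(z.re + δ) * u))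
    (h2 : ∀ u : ℝ, ‖F u‖ ≤ C2 * Real.exp (-(z.re - δ) * u)) :
    Integrable (fun u : ℝ => F u * cexp (z * u)) := by
  refine ((DB_int_abs hδ).const_mul (max |C1| |C2|)).mono' ?_ (ae_of_all _ fun u => ?_)
  · exact (hF.mul (by fun_prop)).aestronglyMeasurable
  · rw [DB_norm_mul]
    exact DB_two h1 h2 u

/-- DB: Mellin transform -/
theorem db_mellin_pr {κ : ℝ} (hκ : 0 < κ) {K : ℝ → ℂ} (hK : IsKer κ K) {b : ℕ → ℂ} {Cb : ℝ}
    (hb : RSB b Cb) (x : Ix) {z : ℂ} (hz : 1 / 2 < z.re) :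
    Integrable (fun u : ℝ => D b K x u * cexp (z * u)) ∧
      ∫ u : ℝ, D b K x u * cexp (z * u) =
        (∫ u : ℝ, K u * cexp (z * u)) * LSeries (fun n => b n * ev x n) (1 / 2 + z) := by
  set δ : ℝ := (z.re - 1 / 2) / 2 with hδ
  have hδ0 : 0 < δ := by simp only [hδ]; linarith
  constructor
  · obtain ⟨C1, -, h1⟩ := db_bound_pr hκ hK Cb (A := z.re + δ) (by linarith)
    obtain ⟨C2, -, h2⟩ := db_bound_pr hκ hK Cb (A := z.re - δ) (by simp only [hδ]; linarith)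
    exact DB_integrable (db_cont_pr hκ hK hb x) hδ0 (h1 b hb x) (h2 b hb x)
  -- the integral of the kernel
  obtain ⟨C1, h1⟩ := hK.le (z.re + δ) (by linarith)
  obtain ⟨C2, h2⟩ := hK.le (z.re - δ) (by simp only [hδ]; linarith)
  have hKi : Integrable (fun u : ℝ => K u * cexp (z * u)) := DB_integrable hK.cont hδ0 h1 h2
  set c : ℕ → ℂ := fun n => b n * ev x n * (((√(n : ℝ))⁻¹ : ℝ) : ℂ) * cexp (-z * Real.log n) with hc
  have hF : ∀ (n : ℕ) (u : ℝ), b n * ev x n * (((√(n : ℝ))⁻¹ : ℝ) : ℂ) * K (u + Real.log n) *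
      cexp (z * u) = c n * (K (u + Real.log n) * cexp (z * ((u + Real.log n : ℝ) : ℂ))) := by
    intro n u
    have e1 : cexp (z * u) = cexp (-z * Real.log n) * cexp (z * ((u + Real.log n : ℝ) : ℂ)) := by
      rw [← Complex.exp_add]
      congr 1
      push_cast
      ring
    rw [e1, hc]
    ring
  have hint : ∀ n : ℕ, Integrable (fun u : ℝ => b n * ev x n * (((√(n : ℝ))⁻¹ : ℝ) : ℂ) *
      K (u + Real.log n) * cexp (z * u)) := by
    intro n
    simp only [hF]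
    exact (hKi.comp_add_right (Real.log n)).const_mul _
  have hcn : ∀ n : ℕ, ‖c n‖ ≤ ‖b n‖ * (n : ℝ) ^ (-1 / 2 - z.re) := by
    intro n
    rcases Nat.eq_zero_or_pos n with hn | hn
    · subst hn
      simp only [hc]
      rw [Nat.cast_zero, Real.sqrt_zero, inv_zero, Complex.ofReal_zero, mul_zero, zero_mul,
        norm_zero]
      positivity
    have hn0 : (0 : ℝ) < n := by exact_mod_cast hn
    have e1 : ‖cexp (-z * Real.log n)‖ = (n : ℝ) ^ (-z.re) := by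
      rw [Complex.norm_exp, Real.rpow_def_of_pos hn0]
      congr 1
      rw [Complex.mul_re, Complex.ofReal_re, Complex.ofReal_im, mul_zero, sub_zero, Complex.neg_re]
      ring
    simp only [hc]
    rw [norm_mul, norm_mul, norm_mul, Complex.norm_real, Real.norm_eq_abs,
      abs_of_nonneg (by positivity), e1, DB_sqrt hn,
      show (-1 / 2 - z.re) = -1 / 2 + -z.re by ring, Real.rpow_add hn0, ← mul_assoc]
    apply mul_le_mul_of_nonneg_right _ (by positivity)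
    apply mul_le_mul_of_nonneg_right _ (by positivity)
    exact mul_le_of_le_one_right (norm_nonneg _) (DB_ev x n)
  obtain ⟨C', -, h3⟩ := DB_abs hz Cb
  have hnorm : ∀ n : ℕ, ∫ u : ℝ, ‖b n * ev x n * (((√(n : ℝ))⁻¹ : ℝ) : ℂ) *
      K (u + Real.log n) * cexp (z * u)‖ = ‖c n‖ * ∫ u : ℝ, ‖K u * cexp (z * u)‖ := by
    intro n
    simp only [hF]
    have e1 : ∀ u : ℝ, ‖c n * (K (u + Real.log n) * cexp (z * ((u + Real.log n : ℝ) : ℂ)))‖ =
        ‖c n‖ * ‖K (u + Real.log n) * cexp (z * ((u + Real.log n : ℝ) : ℂ))‖ := fun u =>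
      norm_mul _ _
    simp only [e1]
    rw [integral_const_mul]
    congr 1
    exact integral_add_right_eq_self (fun v : ℝ => ‖K v * cexp (z * (v : ℂ))‖) (Real.log n)
  have hsummable : Summable (fun n : ℕ => ∫ u : ℝ, ‖b n * ev x n * (((√(n : ℝ))⁻¹ : ℝ) : ℂ) *
      K (u + Real.log n) * cexp (z * u)‖) := by
    simp only [hnorm]
    refine Summable.mul_right _ (Summable.of_nonneg_of_le (fun n => norm_nonneg _) hcn
      (h3 b hb).1)
  have h4 := hasSum_integral_of_summable_integral_norm hint hsummable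
  have h5 : ∀ u : ℝ, ∑' n : ℕ, b n * ev x n * (((√(n : ℝ))⁻¹ : ℝ) : ℂ) *
      K (u + Real.log n) * cexp (z * u) = D b K x u * cexp (z * u) := by
    intro u
    unfold D
    rw [tsum_mul_right]
  simp only [h5] at h4
  rw [← h4.tsum_eq, LSeries, ← tsum_mul_left]
  refine tsum_congr fun n => ?_
  have h6 : ∫ u : ℝ, b n * ev x n * (((√(n : ℝ))⁻¹ : ℝ) : ℂ) *
      K (u + Real.log n) * cexp (z * u) = c n * ∫ u : ℝ, K u * cexp (z * u) := by
    simp only [hF]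
    rw [integral_const_mul]
    congr 1
    exact integral_add_right_eq_self (fun v : ℝ => K v * cexp (z * (v : ℂ))) (Real.log n)
  rw [h6, mul_comm]
  congr 1
  rcases Nat.eq_zero_or_pos n with hn | hn
  · subst hn
    simp only [hc]
    rw [LSeries.term_zero, Nat.cast_zero, Real.sqrt_zero, inv_zero, Complex.ofReal_zero, mul_zero,
      zero_mul]
  · have hn0 : (0 : ℝ) < n := by exact_mod_cast hn
    have hnC : (n : ℂ) ≠ 0 := by exact_mod_cast hn.ne'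
    rw [LSeries.term_of_ne_zero hn.ne']
    simp only [hc]
    rw [DB_sqrt hn, Complex.cpow_add _ _ hnC]
    have e1 : cexp (-z * Real.log n) = ((n : ℂ) ^ z)⁻¹ := by
      rw [Complex.cpow_def_of_ne_zero hnC, ← Complex.exp_neg, Complex.ofReal_log hn0.le,
        Complex.ofReal_natCast]
      congr 1
      ring
    have e2 : (((n : ℝ) ^ (-1 / 2 : ℝ) : ℝ) : ℂ) = ((n : ℂ) ^ (1 / 2 : ℂ))⁻¹ := by
      rw [show (-1 / 2 : ℝ) = -(1 / 2) by ring, Real.rpow_neg hn0.le, Complex.ofReal_inv,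
        Complex.ofReal_cpow hn0.le]
      push_cast
      rfl
    rw [e1, e2]
    field_simp

end Pool.Agent.G4
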