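import Pool.Agent.Lib_helper44.G4.Defs

/-! Block AB (helper38). -/

namespace Pool.Agent.G4

open Complex MeasureTheory Filter Topology Set

/-- Abel summation: nonnegative partial sums against an antitone nonnegative weight -/
theorem AB_abel (h φ : ℕ → ℝ) (hH : ∀ n, 0 ≤ ∑ k ∈ Finset.Icc 1 n, h k) (hφ0 : ∀ n, 1 ≤ n → 0 ≤ φ n)
    (hφ : ∀ n, 1 ≤ n → φ (n + 1) ≤ φ n) (n : ℕ) (hn : 1 ≤ n) :
    (∑ k ∈ Finset.Icc 1 n, h k) * φ n ≤ ∑ k ∈ Finset.Icc 1 n, h k * φ k := by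
  induction n, hn using Nat.le_induction with
  | base => simp
  | succ n hn ih =>
    rw [Finset.sum_Icc_succ_top (by omega), Finset.sum_Icc_succ_top (by omega), add_mul]
    have h1 : (∑ k ∈ Finset.Icc 1 n, h k) * φ (n + 1) ≤ (∑ k ∈ Finset.Icc 1 n, h k) * φ n :=
      mul_le_mul_of_nonneg_left (hφ n hn) (hH n)
    linarith

theorem AB_major {g φ : ℕ → ℝ} {C : ℝ} (hg : ∀ x : ℕ, ∑ n ∈ Finset.Icc 1 x, g n ≤ C * x)
    (hφ0 : ∀ n, 1 ≤ n → 0 ≤ φ n) (hφ : ∀ n, 1 ≤ n → φ (n + 1) ≤ φ n) (x : ℕ) :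
    ∑ n ∈ Finset.Icc 1 x, g n * φ n ≤ C * ∑ n ∈ Finset.Icc 1 x, φ n := by
  rcases Nat.eq_zero_or_pos x with rfl | hx
  · simp
  have hH : ∀ n, 0 ≤ ∑ k ∈ Finset.Icc 1 n, (C - g k) := by
    intro n
    rw [Finset.sum_sub_distrib, Finset.sum_const, Nat.card_Icc, nsmul_eq_mul]
    have := hg n
    have h2 : (((n + 1 - 1 : ℕ) : ℝ)) = n := by simp
    rw [h2]
    linarith
  have h1 := AB_abel (fun k => C - g k) φ hH hφ0 hφ x hx
  have h2 : 0 ≤ (∑ k ∈ Finset.Icc 1 x, (C - g k)) * φ x := mul_nonneg (hH x) (hφ0 x hx)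
  have h3 : ∑ k ∈ Finset.Icc 1 x, (C - g k) * φ k =
      C * (∑ n ∈ Finset.Icc 1 x, φ n) - ∑ n ∈ Finset.Icc 1 x, g n * φ n := by
    rw [Finset.mul_sum, ← Finset.sum_sub_distrib]
    refine Finset.sum_congr rfl fun k _ => ?_
    ring
  rw [h3] at h1
  linarith

theorem AB_C_nonneg {g : ℕ → ℝ} {C : ℝ} (hg0 : ∀ n, 0 ≤ g n)
    (hg : ∀ x : ℕ, ∑ n ∈ Finset.Icc 1 x, g n ≤ C * x) : 0 ≤ C := by
  have h1 := hg 1
  simp at h1
  exact (hg0 1).trans h1

theorem AB_step_low {κ : ℝ} (hκ : 0 < κ) (hκ1 : κ ≤ 1) (n : ℕ) (hn : 1 ≤ n) :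
    κ * (n : ℝ) ^ (κ - 1) ≤ (n : ℝ) ^ κ - ((n : ℝ) - 1) ^ κ := by
  have hn0 : (0 : ℝ) < n := by exact_mod_cast hn
  have h1 : (1 + -(1 / (n : ℝ))) ^ κ ≤ 1 + κ * -(1 / (n : ℝ)) := by
    apply rpow_one_add_le_one_add_mul_self _ hκ.le hκ1
    rw [neg_le_neg_iff, div_le_one hn0]
    exact_mod_cast hn
  have hnn : 0 ≤ 1 + -(1 / (n : ℝ)) := by
    have : 1 / (n : ℝ) ≤ 1 := by rw [div_le_one hn0]; exact_mod_cast hn
    linarith
  have h2 : ((n : ℝ) - 1) ^ κ = (n : ℝ) ^ κ * (1 + -(1 / (n : ℝ))) ^ κ := by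
    rw [← Real.mul_rpow hn0.le hnn]
    congr 1
    field_simp
    ring
  have h3 : (n : ℝ) ^ (κ - 1) = (n : ℝ) ^ κ * (1 / n) := by
    rw [Real.rpow_sub_one hn0.ne']
    ring
  have h4 := mul_le_mul_of_nonneg_left h1 (by positivity : 0 ≤ (n : ℝ) ^ κ)
  rw [h2, h3]
  linarith

theorem AB_step_high {B : ℝ} (hB : 0 < B) (n : ℕ) (hn : 1 ≤ n) :
    B * ((n : ℝ) + 1) ^ (-1 - B) ≤ (n : ℝ) ^ (-B) - ((n : ℝ) + 1) ^ (-B) := by
  have hn0 : (0 : ℝ) < n := by exact_mod_cast hn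
  set y : ℝ := (n : ℝ) + 1 with hy
  have hy0 : 0 < y := by positivity
  have h1 : (n : ℝ) ^ (-B) = y ^ (-B) * Real.exp (-B * Real.log (n / y)) := by
    have h2 : (n : ℝ) = y * (n / y) := by field_simp
    conv_lhs => rw [h2]
    rw [Real.mul_rpow hy0.le (by positivity), Real.rpow_def_of_pos (show 0 < (n : ℝ) / y by positivity)]
    congr 2
    ring
  have h2 : Real.log ((n : ℝ) / y) ≤ -(1 / y) := by
    have h3 := Real.log_le_sub_one_of_pos (show 0 < (n : ℝ) / y by positivity)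
    have h4 : (n : ℝ) / y - 1 = -(1 / y) := by
      field_simp
      rw [hy]
      ring
    linarith
  have h3 : 1 + B / y ≤ Real.exp (-B * Real.log (n / y)) := by
    have h4 := Real.add_one_le_exp (-B * Real.log (n / y))
    have h5 : B / y ≤ -B * Real.log (n / y) := by
      have := mul_le_mul_of_nonneg_left h2 hB.le
      have e : B * -(1 / y) = -(B / y) := by ring
      rw [e] at this
      linarith
    linarith
  have h4 : y ^ (-1 - B) = y ^ (-B) * (1 / y) := by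
    rw [show -1 - B = -B - 1 by ring, Real.rpow_sub_one hy0.ne']
    ring
  have h5 := mul_le_mul_of_nonneg_left h3 (by positivity : 0 ≤ y ^ (-B))
  rw [h1, h4]
  have h6 : y ^ (-B) * (1 + B / y) = y ^ (-B) + B * (y ^ (-B) * (1 / y)) := by ring
  linarith

/-- AB1 -/
theorem ab_low_pr {κ : ℝ} (hκ : 0 < κ) : ∃ C' : ℝ, 0 ≤ C' ∧ ∀ (g : ℕ → ℝ) (C : ℝ), (∀ n, 0 ≤ g n) →
    (∀ x : ℕ, ∑ n ∈ Finset.Icc 1 x, g n ≤ C * x) → ∀ x : ℕ, 1 ≤ x →
      ∑ n ∈ Finset.Icc 1 x, g n * (n : ℝ) ^ (κ - 1) ≤ C' * C * (x : ℝ) ^ κ := by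
  refine ⟨1 + 1 / κ, by positivity, fun g C hg0 hg x hx => ?_⟩
  have hC := AB_C_nonneg hg0 hg
  have hx0 : (0 : ℝ) < x := by exact_mod_cast hx
  rcases le_or_gt 1 κ with h1 | h1
  · -- increasing weight
    have h2 : ∑ n ∈ Finset.Icc 1 x, g n * (n : ℝ) ^ (κ - 1) ≤
        (∑ n ∈ Finset.Icc 1 x, g n) * (x : ℝ) ^ (κ - 1) := by
      rw [Finset.sum_mul]
      refine Finset.sum_le_sum fun n hn => mul_le_mul_of_nonneg_left ?_ (hg0 n)
      apply Real.rpow_le_rpow (Nat.cast_nonneg n) _ (by linarith)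
      exact_mod_cast (Finset.mem_Icc.1 hn).2
    calc ∑ n ∈ Finset.Icc 1 x, g n * (n : ℝ) ^ (κ - 1)
        ≤ (∑ n ∈ Finset.Icc 1 x, g n) * (x : ℝ) ^ (κ - 1) := h2
      _ ≤ C * x * (x : ℝ) ^ (κ - 1) := mul_le_mul_of_nonneg_right (hg x) (by positivity)
      _ = 1 * C * (x : ℝ) ^ κ := by
          rw [Real.rpow_sub_one hx0.ne']
          field_simp
      _ ≤ (1 + 1 / κ) * C * (x : ℝ) ^ κ := by
          apply mul_le_mul_of_nonneg_right _ (by positivity)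
          apply mul_le_mul_of_nonneg_right _ hC
          have : 0 < 1 / κ := by positivity
          linarith
  · have h2 := AB_major (φ := fun n => (n : ℝ) ^ (κ - 1)) hg (fun n _ => by positivity)
      (fun n hn => by
        apply Real.rpow_le_rpow_of_nonpos (by exact_mod_cast hn) _ (by linarith)
        push_cast
        linarith) x
    have h3 : ∑ n ∈ Finset.Icc 1 x, κ * (n : ℝ) ^ (κ - 1) ≤ (x : ℝ) ^ κ := by
      calc ∑ n ∈ Finset.Icc 1 x, κ * (n : ℝ) ^ (κ - 1)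
          ≤ ∑ n ∈ Finset.Icc 1 x, ((n : ℝ) ^ κ - ((n : ℝ) - 1) ^ κ) :=
            Finset.sum_le_sum fun n hn => AB_step_low hκ h1.le n (Finset.mem_Icc.1 hn).1
        _ = (x : ℝ) ^ κ := by
            clear h2 hx hx0
            induction x with
            | zero => simp [Real.zero_rpow hκ.ne']
            | succ x ih =>
              rw [Finset.sum_Icc_succ_top (by omega), ih]
              push_cast
              ring_nf
    rw [← Finset.mul_sum] at h3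
    have h4 : ∑ n ∈ Finset.Icc 1 x, (n : ℝ) ^ (κ - 1) ≤ 1 / κ * (x : ℝ) ^ κ := by
      rw [div_mul_eq_mul_div, one_mul, le_div_iff₀ hκ]
      linarith
    calc ∑ n ∈ Finset.Icc 1 x, g n * (n : ℝ) ^ (κ - 1)
        ≤ C * ∑ n ∈ Finset.Icc 1 x, (n : ℝ) ^ (κ - 1) := h2
      _ ≤ C * (1 / κ * (x : ℝ) ^ κ) := mul_le_mul_of_nonneg_left h4 hC
      _ = 1 / κ * C * (x : ℝ) ^ κ := by ring
      _ ≤ (1 + 1 / κ) * C * (x : ℝ) ^ κ := by
          apply mul_le_mul_of_nonneg_right _ (by positivity)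
          apply mul_le_mul_of_nonneg_right _ hC
          linarith

theorem AB_tail_sum {B : ℝ} (hB : 0 < B) (x : ℕ) (hx : 1 ≤ x) (N : ℕ) (hN : x ≤ N) :
    ∑ n ∈ Finset.Icc 1 N, (max (n : ℝ) x) ^ (-1 - B) ≤ (1 + 1 / B) * (x : ℝ) ^ (-B) := by
  have hx0 : (0 : ℝ) < x := by exact_mod_cast hx
  have key : ∑ n ∈ Finset.Icc 1 N, (max (n : ℝ) x) ^ (-1 - B) ≤
      (1 + 1 / B) * (x : ℝ) ^ (-B) - 1 / B * (N : ℝ) ^ (-B) := by
    induction N, hN using Nat.le_induction with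
    | base =>
      have h1 : ∑ n ∈ Finset.Icc 1 x, (max (n : ℝ) x) ^ (-1 - B) =
          ∑ n ∈ Finset.Icc 1 x, (x : ℝ) ^ (-1 - B) := by
        refine Finset.sum_congr rfl fun n hn => ?_
        rw [max_eq_right]
        exact_mod_cast (Finset.mem_Icc.1 hn).2
      rw [h1, Finset.sum_const, Nat.card_Icc, nsmul_eq_mul, Nat.add_sub_cancel,
        show -1 - B = -B - 1 by ring, Real.rpow_sub_one hx0.ne']
      apply le_of_eq
      field_simp
      ring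
    | succ N hN ih =>
      rw [Finset.sum_Icc_succ_top (by omega)]
      have h1 : max ((N + 1 : ℕ) : ℝ) x = (N : ℝ) + 1 := by
        rw [max_eq_left]
        · push_cast; ring
        · exact_mod_cast (by omega : x ≤ N + 1)
      rw [h1]
      have h2 := AB_step_high hB N (by omega)
      have h3 : ((N : ℝ) + 1) ^ (-1 - B) ≤ 1 / B * ((N : ℝ) ^ (-B) - ((N : ℝ) + 1) ^ (-B)) := by
        rw [div_mul_eq_mul_div, one_mul, le_div_iff₀ hB]
        linarith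
      push_cast
      linarith
  have h2 : 0 ≤ 1 / B * (N : ℝ) ^ (-B) := by positivity
  linarith

/-- AB2 -/
theorem ab_high_pr {B : ℝ} (hB : 0 < B) : ∃ C' : ℝ, 0 ≤ C' ∧ ∀ (g : ℕ → ℝ) (C : ℝ), (∀ n, 0 ≤ g n) →
    (∀ x : ℕ, ∑ n ∈ Finset.Icc 1 x, g n ≤ C * x) →
      (Summable fun n : ℕ => g n * (n : ℝ) ^ (-1 - B)) ∧ ∀ x : ℕ, 1 ≤ x →
      ∑' n : ℕ, (if x ≤ n then g n * (n : ℝ) ^ (-1 - B) else 0) ≤ C' * C * (x : ℝ) ^ (-B) := by
  refine ⟨1 + 1 / B, by positivity, fun g C hg0 hg => ?_⟩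
  have hC := AB_C_nonneg hg0 hg
  have hpart : ∀ x : ℕ, 1 ≤ x → ∀ N : ℕ,
      ∑ n ∈ Finset.range N, (if x ≤ n then g n * (n : ℝ) ^ (-1 - B) else 0) ≤
        (1 + 1 / B) * C * (x : ℝ) ^ (-B) := by
    intro x hx N
    have hx0 : (0 : ℝ) < x := by exact_mod_cast hx
    have h1 : ∑ n ∈ Finset.range N, (if x ≤ n then g n * (n : ℝ) ^ (-1 - B) else 0) ≤
        ∑ n ∈ Finset.Icc 1 (max N x), g n * (max (n : ℝ) x) ^ (-1 - B) := by
      rw [← Finset.sum_filter]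
      have h2 : (Finset.range N).filter (fun n => x ≤ n) ⊆ Finset.Icc 1 (max N x) := by
        intro n hn
        rw [Finset.mem_filter, Finset.mem_range] at hn
        rw [Finset.mem_Icc]
        exact ⟨by omega, le_max_of_le_left hn.1.le⟩
      refine le_trans (le_of_eq ?_) (Finset.sum_le_sum_of_subset_of_nonneg h2
        (fun n _ _ => mul_nonneg (hg0 n) (by positivity)))
      refine Finset.sum_congr rfl fun n hn => ?_
      rw [Finset.mem_filter] at hn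
      rw [max_eq_left]
      exact_mod_cast hn.2
    have h2 := AB_major (φ := fun n => (max (n : ℝ) x) ^ (-1 - B)) hg
      (fun n _ => by positivity)
      (fun n hn => by
        apply Real.rpow_le_rpow_of_nonpos (lt_max_of_lt_right hx0) _ (by linarith)
        apply max_le_max _ le_rfl
        push_cast
        linarith) (max N x)
    have h3 := AB_tail_sum hB x hx (max N x) (le_max_right _ _)
    calc ∑ n ∈ Finset.range N, (if x ≤ n then g n * (n : ℝ) ^ (-1 - B) else 0)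
        ≤ ∑ n ∈ Finset.Icc 1 (max N x), g n * (max (n : ℝ) x) ^ (-1 - B) := h1
      _ ≤ C * ∑ n ∈ Finset.Icc 1 (max N x), (max (n : ℝ) x) ^ (-1 - B) := h2
      _ ≤ C * ((1 + 1 / B) * (x : ℝ) ^ (-B)) := mul_le_mul_of_nonneg_left h3 hC
      _ = (1 + 1 / B) * C * (x : ℝ) ^ (-B) := by ring
  refine ⟨?_, fun x hx => ?_⟩
  · refine summable_of_sum_range_le (c := (1 + 1 / B) * C * ((1 : ℕ) : ℝ) ^ (-B))
      (fun n => mul_nonneg (hg0 n) (by positivity)) (fun N => ?_)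
    refine le_trans (le_of_eq ?_) (hpart 1 le_rfl N)
    refine Finset.sum_congr rfl fun n _ => ?_
    split_ifs with h
    · rfl
    · have : n = 0 := by omega
      subst this
      rw [Nat.cast_zero, Real.zero_rpow (by linarith), mul_zero]
  · refine Real.tsum_le_of_sum_range_le (fun n => ?_) (hpart x hx)
    split_ifs
    · exact mul_nonneg (hg0 n) (by positivity)
    · exact le_rfl

end Pool.Agent.G4
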