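import Pool.Agent.Lib_helper38.G4.AB
import Pool.Agent.Lib_helper44.G4.Defs

/-! Block BB (helper38): b0_bound, b0_tail, b2_bound. Cites ab_low, ab_high. -/

namespace Pool.Agent.G4

open Complex MeasureTheory Filter Topology Set

theorem BB_RSB_nonneg {b : ℕ → ℂ} {Cb : ℝ} (hb : RSB b Cb) : 0 ≤ Cb := by
  have h1 := hb 1
  simp at h1
  exact (by positivity : 0 ≤ ‖b 1‖ ^ 2).trans h1

/-- pointwise bound of the kernel -/
theorem BB_ker {K : ℝ → ℂ} {A C : ℝ} (h : ∀ u : ℝ, ‖K u‖ ≤ C * Real.exp (-A * u)) (u : ℝ) {n : ℕ}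
    (hn : 1 ≤ n) : ‖K (u + Real.log n)‖ ^ 2 ≤
      C ^ 2 * Real.exp (-2 * A * u) * (n : ℝ) ^ (-2 * A) := by
  have hn0 : (0 : ℝ) < n := by exact_mod_cast hn
  have h1 := h (u + Real.log n)
  have h2 : Real.exp (-A * (u + Real.log n)) = Real.exp (-A * u) * (n : ℝ) ^ (-A) := by
    rw [Real.rpow_def_of_pos hn0, ← Real.exp_add]
    congr 1
    ring
  rw [h2] at h1
  have h3 := pow_le_pow_left₀ (norm_nonneg _) h1 2
  refine h3.trans (le_of_eq ?_)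
  rw [mul_pow, mul_pow, ← Real.exp_nat_mul, ← Real.rpow_natCast ((n : ℝ) ^ (-A)),
    ← Real.rpow_mul hn0.le]
  have e1 : ((2 : ℕ) : ℝ) * (-A * u) = -2 * A * u := by push_cast; ring
  have e2 : -A * ((2 : ℕ) : ℝ) = -2 * A := by push_cast; ring
  rw [e1, e2, ← mul_assoc]

theorem BB_main {κ : ℝ} {K : ℝ → ℂ} (hK : IsKer κ K) (Cb : ℝ) {q A₁ A₂ : ℝ}
    (h1 : -κ < A₁) (h1' : 2 * A₁ < q) (h2 : -κ < A₂) (h2' : q < 2 * A₂) (hq : q ≠ 1) :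
    ∃ C : ℝ, 0 ≤ C ∧ ∀ b : ℕ → ℂ, RSB b Cb → ∀ u : ℝ,
      (Summable fun n : ℕ => ‖b n‖ ^ 2 * (n : ℝ) ^ (q - 1) * ‖K (u + Real.log n)‖ ^ 2) ∧
      ∑' n : ℕ, ‖b n‖ ^ 2 * (n : ℝ) ^ (q - 1) * ‖K (u + Real.log n)‖ ^ 2 ≤
        C * Real.exp (-q * u) := by
  obtain ⟨C1, hC1⟩ := hK.le A₁ h1
  obtain ⟨C2, hC2⟩ := hK.le A₂ h2
  obtain ⟨C3, hC3, hlow⟩ := ab_low_pr (κ := q - 2 * A₁) (by linarith)
  obtain ⟨C4, hC4, hhigh⟩ := ab_high_pr (B := 2 * A₂ - q) (by linarith)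
  refine ⟨C1 ^ 2 * (C3 * |Cb|) + C2 ^ 2 * (C4 * |Cb|), by positivity, fun b hb u => ?_⟩
  have hCb := BB_RSB_nonneg hb
  rw [abs_of_nonneg hCb]
  have hg0 : ∀ n : ℕ, 0 ≤ ‖b n‖ ^ 2 := fun n => by positivity
  obtain ⟨hsum, htail⟩ := hhigh (fun n => ‖b n‖ ^ 2) Cb hg0 hb
  have hlow' := hlow (fun n => ‖b n‖ ^ 2) Cb hg0 hb
  set x : ℕ := ⌊Real.exp (-u)⌋₊ with hx
  set f1 : ℕ → ℝ := fun n => if n ∈ Finset.Icc 1 x then
    C1 ^ 2 * Real.exp (-2 * A₁ * u) * (‖b n‖ ^ 2 * (n : ℝ) ^ (q - 2 * A₁ - 1)) else 0 with hf1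
  set f2 : ℕ → ℝ := fun n => C2 ^ 2 * Real.exp (-2 * A₂ * u) * (if x + 1 ≤ n then
    ‖b n‖ ^ 2 * (n : ℝ) ^ (-1 - (2 * A₂ - q)) else 0) with hf2
  have hs1 : Summable f1 := by
    refine summable_of_ne_finset_zero (s := Finset.Icc 1 x) fun n hn => ?_
    simp only [hf1, if_neg hn]
  have hs2 : Summable f2 := by
    refine Summable.mul_left _ (Summable.of_nonneg_of_le (fun n => ?_) (fun n => ?_) hsum)
    · split_ifs
      · positivity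
      · exact le_rfl
    · split_ifs
      · exact le_rfl
      · positivity
  have hterm0 : ∀ n : ℕ, 0 ≤ ‖b n‖ ^ 2 * (n : ℝ) ^ (q - 1) * ‖K (u + Real.log n)‖ ^ 2 :=
    fun n => by positivity
  have hle : ∀ n : ℕ, ‖b n‖ ^ 2 * (n : ℝ) ^ (q - 1) * ‖K (u + Real.log n)‖ ^ 2 ≤ f1 n + f2 n := by
    intro n
    rcases Nat.eq_zero_or_pos n with hn | hn
    · subst hn
      rw [Nat.cast_zero, Real.zero_rpow (sub_ne_zero.2 hq), mul_zero, zero_mul]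
      simp [hf1, hf2]
    have hn0 : (0 : ℝ) < n := by exact_mod_cast hn
    have hgen : ∀ (A C : ℝ), (∀ v : ℝ, ‖K v‖ ≤ C * Real.exp (-A * v)) →
        ‖b n‖ ^ 2 * (n : ℝ) ^ (q - 1) * ‖K (u + Real.log n)‖ ^ 2 ≤
          C ^ 2 * Real.exp (-2 * A * u) * (‖b n‖ ^ 2 * (n : ℝ) ^ (q - 2 * A - 1)) := by
      intro A C h
      have h3 := mul_le_mul_of_nonneg_left (BB_ker h u hn)
        (by positivity : 0 ≤ ‖b n‖ ^ 2 * (n : ℝ) ^ (q - 1))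
      refine h3.trans (le_of_eq ?_)
      have h4 : (n : ℝ) ^ (q - 2 * A - 1) = (n : ℝ) ^ (q - 1) * (n : ℝ) ^ (-2 * A) := by
        rw [← Real.rpow_add hn0]
        congr 1
        ring
      rw [h4]
      ring
    rcases Nat.lt_or_ge x n with hxn | hxn
    · have e1 : f1 n = 0 := by
        simp only [hf1]
        rw [if_neg]
        rw [Finset.mem_Icc]
        omega
      have e2 : f2 n = C2 ^ 2 * Real.exp (-2 * A₂ * u) * (‖b n‖ ^ 2 * (n : ℝ) ^ (-1 - (2 * A₂ - q))) := by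
        simp only [hf2]
        rw [if_pos (by omega)]
      rw [e1, e2, zero_add]
      have := hgen A₂ C2 hC2
      rw [show q - 2 * A₂ - 1 = -1 - (2 * A₂ - q) by ring] at this
      exact this
    · have e1 : f1 n = C1 ^ 2 * Real.exp (-2 * A₁ * u) *
          (‖b n‖ ^ 2 * (n : ℝ) ^ (q - 2 * A₁ - 1)) := by
        simp only [hf1]
        rw [if_pos]
        rw [Finset.mem_Icc]
        omega
      have e2 : f2 n = 0 := by
        simp only [hf2]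
        rw [if_neg (by omega), mul_zero]
      rw [e1, e2, add_zero]
      exact hgen A₁ C1 hC1
  have hsumm := Summable.of_nonneg_of_le hterm0 hle (hs1.add hs2)
  refine ⟨hsumm, ?_⟩
  have hX := Real.exp_pos (-u)
  have ht1 : ∑' n, f1 n ≤ C1 ^ 2 * (C3 * Cb) * Real.exp (-q * u) := by
    rw [tsum_eq_sum (s := Finset.Icc 1 x) (fun n hn => by simp only [hf1, if_neg hn])]
    have e1 : ∑ n ∈ Finset.Icc 1 x, f1 n = C1 ^ 2 * Real.exp (-2 * A₁ * u) *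
        ∑ n ∈ Finset.Icc 1 x, ‖b n‖ ^ 2 * (n : ℝ) ^ (q - 2 * A₁ - 1) := by
      rw [Finset.mul_sum]
      refine Finset.sum_congr rfl fun n hn => ?_
      simp only [hf1, if_pos hn]
    rw [e1]
    rcases Nat.eq_zero_or_pos x with hx0 | hx0
    · rw [hx0]
      simp
      positivity
    have e2 := hlow' x hx0
    have e3 : (x : ℝ) ^ (q - 2 * A₁) ≤ Real.exp (-u * (q - 2 * A₁)) := by
      rw [Real.exp_mul]
      exact Real.rpow_le_rpow (Nat.cast_nonneg x) (Nat.floor_le hX.le) (by linarith)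
    calc C1 ^ 2 * Real.exp (-2 * A₁ * u) *
        ∑ n ∈ Finset.Icc 1 x, ‖b n‖ ^ 2 * (n : ℝ) ^ (q - 2 * A₁ - 1)
        ≤ C1 ^ 2 * Real.exp (-2 * A₁ * u) * (C3 * Cb * (x : ℝ) ^ (q - 2 * A₁)) :=
          mul_le_mul_of_nonneg_left e2 (by positivity)
      _ ≤ C1 ^ 2 * Real.exp (-2 * A₁ * u) * (C3 * Cb * Real.exp (-u * (q - 2 * A₁))) := by
          apply mul_le_mul_of_nonneg_left _ (by positivity)
          exact mul_le_mul_of_nonneg_left e3 (by positivity)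
      _ = C1 ^ 2 * (C3 * Cb) * (Real.exp (-2 * A₁ * u) * Real.exp (-u * (q - 2 * A₁))) := by ring
      _ = C1 ^ 2 * (C3 * Cb) * Real.exp (-q * u) := by
          rw [← Real.exp_add]
          congr 2
          ring
  have ht2 : ∑' n, f2 n ≤ C2 ^ 2 * (C4 * Cb) * Real.exp (-q * u) := by
    simp only [hf2]
    rw [tsum_mul_left]
    have e2 := htail (x + 1) (by omega)
    have e3 : ((x + 1 : ℕ) : ℝ) ^ (-(2 * A₂ - q)) ≤ Real.exp (-u * (-(2 * A₂ - q))) := by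
      rw [Real.exp_mul]
      apply Real.rpow_le_rpow_of_nonpos hX _ (by linarith)
      push_cast
      exact (Nat.lt_floor_add_one _).le
    calc C2 ^ 2 * Real.exp (-2 * A₂ * u) * ∑' n : ℕ, (if x + 1 ≤ n then
          ‖b n‖ ^ 2 * (n : ℝ) ^ (-1 - (2 * A₂ - q)) else 0)
        ≤ C2 ^ 2 * Real.exp (-2 * A₂ * u) * (C4 * Cb * ((x + 1 : ℕ) : ℝ) ^ (-(2 * A₂ - q))) :=
          mul_le_mul_of_nonneg_left e2 (by positivity)
      _ ≤ C2 ^ 2 * Real.exp (-2 * A₂ * u) * (C4 * Cb * Real.exp (-u * (-(2 * A₂ - q)))) := by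
          apply mul_le_mul_of_nonneg_left _ (by positivity)
          exact mul_le_mul_of_nonneg_left e3 (by positivity)
      _ = C2 ^ 2 * (C4 * Cb) * (Real.exp (-2 * A₂ * u) * Real.exp (-u * (-(2 * A₂ - q)))) := by ring
      _ = C2 ^ 2 * (C4 * Cb) * Real.exp (-q * u) := by
          rw [← Real.exp_add]
          congr 2
          ring
  calc ∑' n : ℕ, ‖b n‖ ^ 2 * (n : ℝ) ^ (q - 1) * ‖K (u + Real.log n)‖ ^ 2
      ≤ ∑' n, (f1 n + f2 n) := hsumm.tsum_le_tsum hle (hs1.add hs2)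
    _ = (∑' n, f1 n) + ∑' n, f2 n := hs1.tsum_add hs2
    _ ≤ C1 ^ 2 * (C3 * Cb) * Real.exp (-q * u) + C2 ^ 2 * (C4 * Cb) * Real.exp (-q * u) :=
        add_le_add ht1 ht2
    _ = _ := by ring

/-- B0: mass -/
theorem b0_bound_pr {κ : ℝ} (hκ : 0 < κ) {K : ℝ → ℂ} (hK : IsKer κ K) (Cb : ℝ) :
    ∃ C : ℝ, 0 ≤ C ∧ ∀ b : ℕ → ℂ, RSB b Cb → ∀ u : ℝ,
      (Summable fun n : ℕ => ‖b n‖ ^ 2 / n * ‖K (u + Real.log n)‖ ^ 2) ∧
      ∑' n : ℕ, ‖b n‖ ^ 2 / n * ‖K (u + Real.log n)‖ ^ 2 ≤ C := by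
  obtain ⟨C, hC, h⟩ := BB_main hK Cb (q := 0) (A₁ := -κ / 2) (A₂ := 1) (by linarith)
    (by linarith) (by linarith) (by norm_num) (by norm_num)
  refine ⟨C, hC, fun b hb u => ?_⟩
  have h1 := h b hb u
  have e : ∀ n : ℕ, ‖b n‖ ^ 2 * (n : ℝ) ^ ((0 : ℝ) - 1) * ‖K (u + Real.log n)‖ ^ 2 =
      ‖b n‖ ^ 2 / n * ‖K (u + Real.log n)‖ ^ 2 := by
    intro n
    rw [zero_sub, Real.rpow_neg_one, div_eq_mul_inv]
  simp only [e] at h1
  refine ⟨h1.1, h1.2.trans (le_of_eq ?_)⟩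
  simp

/-- B0T: mass of the tail -/
theorem b0_tail_pr {κ : ℝ} (hκ : 0 < κ) {K : ℝ → ℂ} (hK : IsKer κ K) (Cb : ℝ) {A : ℝ} (hA : 0 < A) :
    ∃ C : ℝ, 0 ≤ C ∧ ∀ b : ℕ → ℂ, RSB b Cb → ∀ P : ℕ, 1 ≤ P → (∀ n < P, b n = 0) → ∀ u : ℝ,
      ∑' n : ℕ, ‖b n‖ ^ 2 / n * ‖K (u + Real.log n)‖ ^ 2 ≤ C * (P * Real.exp u) ^ (-A) := by
  obtain ⟨C1, hC1⟩ := hK.le (A / 2) (by linarith)
  obtain ⟨C4, hC4, hhigh⟩ := ab_high_pr (B := A) hA
  refine ⟨C1 ^ 2 * (C4 * |Cb|), by positivity, fun b hb P hP hbP u => ?_⟩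
  have hCb := BB_RSB_nonneg hb
  rw [abs_of_nonneg hCb]
  have hP0 : (0 : ℝ) < P := by exact_mod_cast hP
  have hg0 : ∀ n : ℕ, 0 ≤ ‖b n‖ ^ 2 := fun n => by positivity
  obtain ⟨hsum, htail⟩ := hhigh (fun n => ‖b n‖ ^ 2) Cb hg0 hb
  set f : ℕ → ℝ := fun n => C1 ^ 2 * Real.exp (-A * u) * (if P ≤ n then
    ‖b n‖ ^ 2 * (n : ℝ) ^ (-1 - A) else 0) with hf
  have hs : Summable f := by
    refine Summable.mul_left _ (Summable.of_nonneg_of_le (fun n => ?_) (fun n => ?_) hsum)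
    · split_ifs
      · positivity
      · exact le_rfl
    · split_ifs
      · exact le_rfl
      · positivity
  have hle : ∀ n : ℕ, ‖b n‖ ^ 2 / n * ‖K (u + Real.log n)‖ ^ 2 ≤ f n := by
    intro n
    rcases Nat.lt_or_ge n P with hn | hn
    · rw [hbP n hn, hf]
      simp only
      rw [if_neg (by omega)]
      simp
    have hn1 : 1 ≤ n := hP.trans hn
    have hn0 : (0 : ℝ) < n := by exact_mod_cast hn1
    have h3 := mul_le_mul_of_nonneg_left (BB_ker hC1 u hn1)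
      (by positivity : 0 ≤ ‖b n‖ ^ 2 / n)
    refine h3.trans (le_of_eq ?_)
    simp only [hf]
    rw [if_pos hn]
    have h4 : (n : ℝ) ^ (-1 - A) = (n : ℝ) ^ (-2 * (A / 2)) / n := by
      rw [show -1 - A = -2 * (A / 2) - 1 by ring, Real.rpow_sub_one hn0.ne']
    rw [h4, show -2 * (A / 2) * u = -A * u by ring]
    ring
  have hsumm : Summable fun n : ℕ => ‖b n‖ ^ 2 / n * ‖K (u + Real.log n)‖ ^ 2 :=
    Summable.of_nonneg_of_le (fun n => by positivity) hle hs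
  have e2 := htail P hP
  calc ∑' n : ℕ, ‖b n‖ ^ 2 / n * ‖K (u + Real.log n)‖ ^ 2
      ≤ ∑' n, f n := hsumm.tsum_le_tsum hle hs
    _ = C1 ^ 2 * Real.exp (-A * u) * ∑' n : ℕ, (if P ≤ n then
        ‖b n‖ ^ 2 * (n : ℝ) ^ (-1 - A) else 0) := by simp only [hf]; rw [tsum_mul_left]
    _ ≤ C1 ^ 2 * Real.exp (-A * u) * (C4 * Cb * (P : ℝ) ^ (-A)) :=
        mul_le_mul_of_nonneg_left e2 (by positivity)
    _ = C1 ^ 2 * (C4 * Cb) * (P * Real.exp u) ^ (-A) := by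
        rw [Real.mul_rpow hP0.le (Real.exp_pos u).le, ← Real.exp_mul,
          show u * -A = -A * u by ring]
        ring

/-- B2 -/
theorem b2_bound_pr {κ : ℝ} (hκ : 0 < κ) {K : ℝ → ℂ} (hK : IsKer κ K) (Cb : ℝ) :
    ∃ C : ℝ, 0 ≤ C ∧ ∀ b : ℕ → ℂ, RSB b Cb → ∀ u : ℝ,
      (Summable fun n : ℕ => (n : ℝ) * ‖b n‖ ^ 2 * ‖K (u + Real.log n)‖ ^ 2) ∧
      ∑' n : ℕ, (n : ℝ) * ‖b n‖ ^ 2 * ‖K (u + Real.log n)‖ ^ 2 ≤ C * Real.exp (-2 * u) := by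
  obtain ⟨C, hC, h⟩ := BB_main hK Cb (q := 2) (A₁ := 0) (A₂ := 2) (by linarith)
    (by linarith) (by linarith) (by norm_num) (by norm_num)
  refine ⟨C, hC, fun b hb u => ?_⟩
  have h1 := h b hb u
  have e : ∀ n : ℕ, ‖b n‖ ^ 2 * (n : ℝ) ^ ((2 : ℝ) - 1) * ‖K (u + Real.log n)‖ ^ 2 =
      (n : ℝ) * ‖b n‖ ^ 2 * ‖K (u + Real.log n)‖ ^ 2 := by
    intro n
    rw [show (2 : ℝ) - 1 = 1 by norm_num, Real.rpow_one]
    ring
  simp only [e] at h1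
  exact h1

end Pool.Agent.G4
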