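import Pool.Agent.Lib_helper44.G4.Defs

/-! Blocks GD and GLOW (helper38). -/

namespace Pool.Agent.G4

open Complex MeasureTheory Filter Topology Set

variable {m : ℕ}

theorem GD_norm_Gamma {s : ℂ} (hs : 0 < s.re) : ‖Complex.Gamma s‖ ≤ Real.Gamma s.re := by
  rw [Complex.Gamma_eq_integral hs, Real.Gamma_eq_integral hs, Complex.GammaIntegral]
  refine norm_integral_le_of_norm_le (Real.GammaIntegral_convergent hs) ?_
  rw [ae_restrict_iff' measurableSet_Ioi]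
  refine ae_of_all _ fun x hx => ?_
  have hx0 : (0 : ℝ) < x := hx
  rw [norm_mul, Complex.norm_real, Real.norm_eq_abs, Real.abs_exp,
    Complex.norm_cpow_eq_rpow_re_of_pos hx0]
  simp

/-- GD -/
theorem gamma_decay_pr {σ : ℝ} (hσ : 0 < σ) (y : ℝ) : ∃ C : ℝ, ∀ t : ℝ,
    ‖Gammaℝ (σ + (t + y) * I)‖ ≤ C / (1 + t ^ 2) := by
  set c : ℝ := min (σ ^ 2) 1 / 4 with hc
  have hc0 : 0 < c := by
    have : 0 < min (σ ^ 2) 1 := lt_min (by positivity) one_pos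
    positivity
  set G : ℝ := Real.pi ^ (-σ / 2) * Real.Gamma (σ / 2 + 2) with hG
  have hG0 : 0 ≤ G := by
    have : 0 < Real.Gamma (σ / 2 + 2) := Real.Gamma_pos_of_pos (by positivity)
    positivity
  refine ⟨G * (2 * (1 + y ^ 2)) / c, fun t => ?_⟩
  set τ : ℝ := t + y with hτ
  set s : ℂ := σ + (t + y) * I with hs
  have hsre : s.re = σ := by simp [hs]
  have hsim : s.im = τ := by simp [hs, hτ]
  have hs2 : (s / 2).re = σ / 2 := by simp [hsre]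
  have h2 : s / 2 ≠ 0 := by
    intro h0
    have := congrArg Complex.re h0
    rw [hs2] at this
    simp at this
    linarith
  have h3 : s / 2 + 1 ≠ 0 := by
    intro h0
    have := congrArg Complex.re h0
    rw [Complex.add_re, hs2] at this
    simp at this
    linarith
  have hg : Complex.Gamma (s / 2 + 2) = (s / 2 + 1) * ((s / 2) * Complex.Gamma (s / 2)) := by
    rw [← Complex.Gamma_add_one _ h2, ← Complex.Gamma_add_one _ h3]
    congr 1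
    ring
  have hgn : ‖Complex.Gamma (s / 2 + 2)‖ ≤ Real.Gamma (σ / 2 + 2) := by
    have h4 : (s / 2 + 2).re = σ / 2 + 2 := by rw [Complex.add_re, hs2]; simp
    have h5 := GD_norm_Gamma (s := s / 2 + 2) (by rw [h4]; positivity)
    rwa [h4] at h5
  have hn1 : (σ ^ 2 + τ ^ 2) / 4 = ‖s / 2‖ ^ 2 := by
    rw [norm_div, div_pow, ← Complex.normSq_eq_norm_sq, Complex.normSq_apply, hsre, hsim]
    norm_num
    ring
  have hn2 : ‖s / 2‖ ≤ ‖s / 2 + 1‖ := by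
    rw [← sq_le_sq₀ (norm_nonneg _) (norm_nonneg _), ← Complex.normSq_eq_norm_sq,
      ← Complex.normSq_eq_norm_sq, Complex.normSq_apply, Complex.normSq_apply, Complex.add_re,
      Complex.add_im, hs2]
    simp only [Complex.one_re, Complex.one_im, add_zero]
    nlinarith
  have hprod : c * (1 + τ ^ 2) ≤ ‖s / 2 + 1‖ * ‖s / 2‖ := by
    have h4 : c * (1 + τ ^ 2) ≤ (σ ^ 2 + τ ^ 2) / 4 := by
      have e1 : min (σ ^ 2) 1 ≤ σ ^ 2 := min_le_left _ _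
      have e2 : min (σ ^ 2) 1 ≤ 1 := min_le_right _ _
      simp only [hc]
      nlinarith [sq_nonneg τ]
    calc c * (1 + τ ^ 2) ≤ ‖s / 2‖ ^ 2 := by rw [← hn1]; exact h4
      _ = ‖s / 2‖ * ‖s / 2‖ := sq _
      _ ≤ ‖s / 2 + 1‖ * ‖s / 2‖ := mul_le_mul_of_nonneg_right hn2 (norm_nonneg _)
  have hpei : 1 + t ^ 2 ≤ 2 * (1 + y ^ 2) * (1 + τ ^ 2) := by
    have : t = τ - y := by rw [hτ]; ring
    rw [this]
    nlinarith [sq_nonneg (τ + y), mul_nonneg (sq_nonneg y) (sq_nonneg τ)]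
  have hgam : ‖Complex.Gamma (s / 2)‖ * (c * (1 + τ ^ 2)) ≤ Real.Gamma (σ / 2 + 2) := by
    calc ‖Complex.Gamma (s / 2)‖ * (c * (1 + τ ^ 2))
        ≤ ‖Complex.Gamma (s / 2)‖ * (‖s / 2 + 1‖ * ‖s / 2‖) :=
          mul_le_mul_of_nonneg_left hprod (norm_nonneg _)
      _ = ‖Complex.Gamma (s / 2 + 2)‖ := by rw [hg, norm_mul, norm_mul]; ring
      _ ≤ Real.Gamma (σ / 2 + 2) := hgn
  have hpi : ‖((Real.pi : ℝ) : ℂ) ^ (-s / 2)‖ = Real.pi ^ (-σ / 2) := by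
    rw [Complex.norm_cpow_eq_rpow_re_of_pos Real.pi_pos]
    congr 1
    simp [hsre]
  rw [Gammaℝ_def, norm_mul, hpi, le_div_iff₀ (by positivity), le_div_iff₀ hc0]
  have h6 : 0 ≤ Real.pi ^ (-σ / 2) := by positivity
  calc Real.pi ^ (-σ / 2) * ‖Complex.Gamma (s / 2)‖ * (1 + t ^ 2) * c
      ≤ Real.pi ^ (-σ / 2) * ‖Complex.Gamma (s / 2)‖ * (2 * (1 + y ^ 2) * (1 + τ ^ 2)) * c := by
        apply mul_le_mul_of_nonneg_right _ hc0.le
        exact mul_le_mul_of_nonneg_left hpei (by positivity)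
    _ = Real.pi ^ (-σ / 2) * (‖Complex.Gamma (s / 2)‖ * (c * (1 + τ ^ 2))) * (2 * (1 + y ^ 2)) := by
        ring
    _ ≤ Real.pi ^ (-σ / 2) * Real.Gamma (σ / 2 + 2) * (2 * (1 + y ^ 2)) := by
        apply mul_le_mul_of_nonneg_right _ (by positivity)
        exact mul_le_mul_of_nonneg_left hgam h6
    _ = G * (2 * (1 + y ^ 2)) := by rw [hG]

/-- GLOW -/
theorem gam_low_pr (S : Sys m) (α β : ℝ) : ∃ g : ℝ, 0 < g ∧ ∀ δ, ∀ η ∈ Set.Icc (0 : ℝ) 1,
    ∀ t ∈ Set.Icc α β, g ≤ ‖S.gam δ (1 / 2 + η + t * I)‖ := by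
  have hne : ∀ δ, ∀ η ∈ Set.Icc (0 : ℝ) 1, ∀ t : ℝ, S.gam δ (1 / 2 + η + t * I) ≠ 0 := by
    intro δ η hη t
    unfold Sys.gam
    refine Finset.prod_ne_zero_iff.2 fun j _ => Gammaℝ_ne_zero_of_re_pos ?_
    have h1 := S.μ_lt δ j
    have h2 : (1 / 2 + (η : ℂ) + t * I - S.μ δ j).re = 1 / 2 + η - (S.μ δ j).re := by simp
    rw [h2]
    linarith [hη.1]
  have key : ∀ δ, ∃ g : ℝ, 0 < g ∧ ∀ η ∈ Set.Icc (0 : ℝ) 1,
      ∀ t ∈ Set.Icc α β, g ≤ ‖S.gam δ (1 / 2 + η + t * I)‖ := by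
    intro δ
    have hcont : Continuous (fun z : ℝ × ℝ =>
        ∏ j, (Gammaℝ (1 / 2 + z.1 + z.2 * I - S.μ δ j))⁻¹) := by
      refine continuous_finsetProd _ fun j _ => ?_
      exact differentiable_Gammaℝ_inv.continuous.comp (by fun_prop)
    obtain ⟨M, hM⟩ := (isCompact_Icc.prod isCompact_Icc :
      IsCompact (Icc (0 : ℝ) 1 ×ˢ Icc α β)).exists_bound_of_continuousOn hcont.continuousOn
    refine ⟨(|M| + 1)⁻¹, by positivity, fun η hη t ht => ?_⟩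
    have h1 := hM (η, t) ⟨hη, ht⟩
    rw [Finset.prod_inv_distrib, norm_inv] at h1
    change ‖S.gam δ (1 / 2 + η + t * I)‖⁻¹ ≤ M at h1
    have h2 : 0 < ‖S.gam δ (1 / 2 + η + t * I)‖ := norm_pos_iff.2 (hne δ η hη t)
    rw [inv_le_comm₀ (by positivity) h2]
    exact h1.trans ((le_abs_self M).trans (by linarith))
  obtain ⟨g0, h0, hg0⟩ := key 0
  obtain ⟨g1, h1, hg1⟩ := key 1
  refine ⟨min g0 g1, lt_min h0 h1, fun δ η hη t ht => ?_⟩
  fin_cases δ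
  · exact (min_le_left _ _).trans (hg0 η hη t ht)
  · exact (min_le_right _ _).trans (hg1 η hη t ht)

end Pool.Agent.G4
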