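import Pool.Agent.Lib_helper44.G4.Defs

/-! Block KER1 (helper38). -/

namespace Pool.Agent.G4

open Complex MeasureTheory Filter Topology Set

theorem KER1_sub_deriv (c : ℝ) :
    ∀ x ∈ (univ : Set ℝ), HasDerivWithinAt (fun u : ℝ => c * Real.exp (2 * u))
      (2 * c * Real.exp (2 * x)) univ x := by
  intro x _
  have h1 : HasDerivAt (fun u : ℝ => 2 * u) 2 x := by
    simpa using (hasDerivAt_id x).const_mul (2 : ℝ)
  have h2 : HasDerivAt (fun u : ℝ => Real.exp (2 * u)) (Real.exp (2 * x) * 2) x := h1.exp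
  have h3 := (h2.const_mul c).hasDerivWithinAt (s := univ)
  exact h3.congr_deriv (by ring)

theorem KER1_sub_image {c : ℝ} (hc : 0 < c) :
    (fun u : ℝ => c * Real.exp (2 * u)) '' univ = Ioi 0 := by
  ext y
  simp only [image_univ, mem_range, mem_Ioi]
  constructor
  · rintro ⟨u, rfl⟩
    positivity
  · intro hy
    refine ⟨Real.log (y / c) / 2, ?_⟩
    rw [mul_div_cancel₀ _ (two_ne_zero), Real.exp_log (by positivity)]
    field_simp

theorem KER1_sub_inj {c : ℝ} (hc : 0 < c) :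
    InjOn (fun u : ℝ => c * Real.exp (2 * u)) univ := by
  intro x _ y _ h
  have h1 : Real.exp (2 * x) = Real.exp (2 * y) := by
    have := mul_left_cancel₀ hc.ne' h
    exact this
  have := Real.exp_injective h1
  linarith

theorem KER1_sub_integrand {c : ℝ} (hc : 0 < c) (z : ℂ) (u : ℝ) (w : ℂ) :
    |2 * c * Real.exp (2 * u)| • (((c * Real.exp (2 * u) : ℝ) : ℂ) ^ (z - 1) • w) =
      2 * (c : ℂ) ^ z * cexp (2 * z * u) * w := by
  have hpos : 0 < c * Real.exp (2 * u) := by positivity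
  have hne : ((c * Real.exp (2 * u) : ℝ) : ℂ) ≠ 0 := by exact_mod_cast hpos.ne'
  rw [abs_of_pos (by positivity), Complex.cpow_sub _ _ hne, Complex.cpow_one]
  have h1 : ((c * Real.exp (2 * u) : ℝ) : ℂ) ^ z = (c : ℂ) ^ z * cexp (2 * z * u) := by
    rw [Complex.ofReal_mul, Complex.mul_cpow_ofReal_nonneg hc.le (Real.exp_pos _).le]
    congr 1
    rw [Complex.ofReal_exp, ← Complex.exp_log (Complex.exp_ne_zero (((2 * u : ℝ) : ℂ)))]
    rw [Complex.cpow_def_of_ne_zero (Complex.exp_ne_zero _), Complex.exp_log (Complex.exp_ne_zero _)]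
    rw [← Complex.ofReal_exp, ← Complex.ofReal_log (Real.exp_pos _).le, Real.log_exp]
    congr 1
    push_cast
    ring
  rw [h1, Complex.real_smul, smul_eq_mul]
  have hc' : (c : ℂ) ≠ 0 := by exact_mod_cast hc.ne'
  push_cast at hne ⊢
  field_simp

theorem KER1_mellin_sub_eq {c : ℝ} (hc : 0 < c) (z : ℂ) (F : ℝ → ℂ) :
    mellin F z =
      ∫ u : ℝ, 2 * (c : ℂ) ^ z * cexp (2 * z * u) * F (c * Real.exp (2 * u)) := by
  rw [mellin, ← KER1_sub_image hc, integral_image_eq_integral_abs_deriv_smul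
    MeasurableSet.univ (KER1_sub_deriv c) (KER1_sub_inj hc), setIntegral_univ]
  simp only [KER1_sub_integrand hc]

theorem KER1_exp_le {c : ℝ} (hc : 0 < c) (u : ℝ) :
    c * u - Real.pi * Real.exp (2 * u) ≤ c ^ 2 / 4 := by
  rcases le_or_gt u 0 with hu | hu
  · have h1 : c * u ≤ 0 := mul_nonpos_of_nonneg_of_nonpos hc.le hu
    have h2 : 0 < Real.pi * Real.exp (2 * u) := by positivity
    have h3 : 0 ≤ c ^ 2 / 4 := by positivity
    linarith
  · have h1 : u + 1 ≤ Real.exp u := Real.add_one_le_exp u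
    have h2 : Real.exp (2 * u) = Real.exp u ^ 2 := by
      rw [← Real.exp_nat_mul]; push_cast; ring_nf
    have h3 : u ^ 2 ≤ Real.exp (2 * u) := by
      rw [h2]
      nlinarith
    have h4 : (1 : ℝ) ≤ Real.pi := by linarith [Real.pi_gt_three]
    have h5 : u ^ 2 ≤ Real.pi * Real.exp (2 * u) := by
      nlinarith [Real.exp_pos (2 * u)]
    nlinarith [sq_nonneg (u - c / 2)]

/-- KER1 -/
theorem ker_one_pr {μ : ℂ} {κ : ℝ} (hκ : 0 < κ) (hμ : μ.re < 1 / 2 - κ) :
    ∃ K : ℝ → ℂ, IsKer κ K ∧ ∀ z : ℂ, -κ < z.re →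
      ∫ u : ℝ, K u * cexp (z * u) = Gammaℝ (1 / 2 + z - μ) := by
  refine ⟨fun u => 2 * cexp ((1 / 2 - μ) * u) * ((Real.exp (-(Real.pi * Real.exp (2 * u))) : ℝ) : ℂ),
    ⟨by fun_prop, fun A hA => ?_⟩, fun z hz => ?_⟩
  · set c : ℝ := 1 / 2 - μ.re + A with hc
    have hc0 : 0 < c := by linarith
    refine ⟨2 * Real.exp (c ^ 2 / 4), fun u => ?_⟩
    have h1 : ‖(2 : ℂ) * cexp ((1 / 2 - μ) * u) *
        ((Real.exp (-(Real.pi * Real.exp (2 * u))) : ℝ) : ℂ)‖ =
        2 * Real.exp (c * u - Real.pi * Real.exp (2 * u)) * Real.exp (-A * u) := by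
      rw [norm_mul, norm_mul, Complex.norm_exp, Complex.norm_real, Real.norm_eq_abs,
        Real.abs_exp, mul_assoc, mul_assoc, ← Real.exp_add, ← Real.exp_add]
      have h2 : ((1 / 2 - μ) * (u : ℂ)).re = (1 / 2 - μ.re) * u := by
        simp [Complex.mul_re, Complex.sub_re]
      rw [h2]
      have h3 : ‖(2 : ℂ)‖ = 2 := by simp
      rw [h3]
      congr 2
      simp only [hc]
      ring
    rw [h1]
    refine mul_le_mul_of_nonneg_right ?_ (Real.exp_pos _).le
    exact mul_le_mul_of_nonneg_left (Real.exp_le_exp.2 (KER1_exp_le hc0 u)) (by norm_num)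
  · set s : ℂ := 1 / 2 + z - μ with hs
    have hre : 0 < (s / 2).re := by
      have h1 : (s / 2).re = (1 / 2 + z.re - μ.re) / 2 := by
        simp [hs]
      rw [h1]
      linarith
    have hne : ((Real.pi : ℝ) : ℂ) ^ (s / 2) ≠ 0 := by
      rw [Ne, Complex.cpow_eq_zero_iff]
      rintro ⟨h, -⟩
      exact Real.pi_ne_zero (by exact_mod_cast h)
    have h1 := KER1_mellin_sub_eq Real.pi_pos (s / 2) (fun x : ℝ => ((Real.exp (-x) : ℝ) : ℂ))
    have h2 : mellin (fun x : ℝ => ((Real.exp (-x) : ℝ) : ℂ)) (s / 2) =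
        Complex.Gamma (s / 2) := by
      rw [Complex.Gamma_eq_integral hre, Complex.GammaIntegral, mellin]
      refine setIntegral_congr_fun measurableSet_Ioi fun x _ => ?_
      simp only [smul_eq_mul]
      rw [mul_comm]
    have h3 : ∀ u : ℝ, 2 * ((Real.pi : ℝ) : ℂ) ^ (s / 2) * cexp (2 * (s / 2) * u) *
        ((Real.exp (-(Real.pi * Real.exp (2 * u))) : ℝ) : ℂ) =
        ((Real.pi : ℝ) : ℂ) ^ (s / 2) * (2 * cexp ((1 / 2 - μ) * u) *
          ((Real.exp (-(Real.pi * Real.exp (2 * u))) : ℝ) : ℂ) * cexp (z * u)) := by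
      intro u
      have h4 : cexp (2 * (s / 2) * u) = cexp ((1 / 2 - μ) * u) * cexp (z * u) := by
        rw [← Complex.exp_add]
        congr 1
        rw [hs]
        ring
      rw [h4]
      ring
    simp only [h3] at h1
    rw [h2, integral_const_mul] at h1
    rw [Gammaℝ_def, h1, ← mul_assoc, ← Complex.cpow_add _ _ (by exact_mod_cast Real.pi_ne_zero)]
    have h5 : -s / 2 + s / 2 = 0 := by ring
    rw [h5, Complex.cpow_zero, one_mul]

end Pool.Agent.G4
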