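import Pool.Agent.Lib_helper44.G4.Defs

/-! Block KER2 (helper38). -/

namespace Pool.Agent.G4

open Complex MeasureTheory Filter Topology Set
open scoped Convolution

theorem KER2_int_abs {δ : ℝ} (hδ : 0 < δ) : Integrable (fun u : ℝ => Real.exp (-δ * |u|)) := by
  have h1 : Integrable (fun u : ℝ => (1 + 2 / δ ^ 2) * (1 + u ^ 2)⁻¹) :=
    integrable_inv_one_add_sq.const_mul _
  refine h1.mono' (by fun_prop) (ae_of_all _ fun u => ?_)
  rw [Real.norm_eq_abs, Real.abs_exp]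
  have h2 : 1 + δ * |u| + (δ * |u|) ^ 2 / 2 ≤ Real.exp (δ * |u|) :=
    Real.quadratic_le_exp_of_nonneg (by positivity)
  have h3 : (δ * |u|) ^ 2 = δ ^ 2 * u ^ 2 := by rw [mul_pow, sq_abs]
  have h4 : 0 ≤ δ * |u| := by positivity
  rw [h3] at h2
  have h5 : Real.exp (-δ * |u|) = (Real.exp (δ * |u|))⁻¹ := by
    rw [← Real.exp_neg]; congr 1; ring
  rw [h5, ← div_eq_mul_inv, le_div_iff₀ (by positivity), inv_mul_le_iff₀ (Real.exp_pos _)]
  have h6 : (1 + 2 / δ ^ 2) * (1 + δ ^ 2 * u ^ 2 / 2) ≤ (1 + 2 / δ ^ 2) * Real.exp (δ * |u|) :=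
    mul_le_mul_of_nonneg_left (by linarith) (by positivity)
  have h7 : (1 + 2 / δ ^ 2) * (1 + δ ^ 2 * u ^ 2 / 2) = 1 + 2 / δ ^ 2 + δ ^ 2 * u ^ 2 / 2 + u ^ 2 := by
    field_simp
    ring
  have h8 : 0 ≤ 2 / δ ^ 2 := by positivity
  have h9 : 0 ≤ δ ^ 2 * u ^ 2 / 2 := by positivity
  rw [mul_comm (Real.exp (δ * |u|))]
  linarith

theorem KER2_dec {κ : ℝ} {K : ℝ → ℂ} (h : IsKer κ K) {A : ℝ} (hA : -κ < A) :
    ∃ δ > 0, ∃ C ≥ 0, ∀ u : ℝ, ‖K u‖ * Real.exp (A * u) ≤ C * Real.exp (-δ * |u|) := by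
  set δ : ℝ := (A + κ) / 2 with hδ
  have hδ0 : 0 < δ := by simp only [hδ]; linarith
  obtain ⟨C1, h1⟩ := h.le (A + δ) (by linarith)
  obtain ⟨C2, h2⟩ := h.le (A - δ) (by simp only [hδ]; linarith)
  refine ⟨δ, hδ0, max |C1| |C2|, le_max_of_le_left (abs_nonneg _), fun u => ?_⟩
  rcases le_total 0 u with hu | hu
  · rw [abs_of_nonneg hu]
    calc ‖K u‖ * Real.exp (A * u) ≤ C1 * Real.exp (-(A + δ) * u) * Real.exp (A * u) :=
          mul_le_mul_of_nonneg_right (h1 u) (Real.exp_pos _).le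
      _ = C1 * Real.exp (-δ * u) := by
          rw [mul_assoc, ← Real.exp_add]; congr 2; ring
      _ ≤ max |C1| |C2| * Real.exp (-δ * u) :=
          mul_le_mul_of_nonneg_right ((le_abs_self C1).trans (le_max_left _ _))
            (Real.exp_pos _).le
  · rw [abs_of_nonpos hu]
    calc ‖K u‖ * Real.exp (A * u) ≤ C2 * Real.exp (-(A - δ) * u) * Real.exp (A * u) :=
          mul_le_mul_of_nonneg_right (h2 u) (Real.exp_pos _).le
      _ = C2 * Real.exp (-δ * -u) := by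
          rw [mul_assoc, ← Real.exp_add]; congr 2; ring
      _ ≤ max |C1| |C2| * Real.exp (-δ * -u) :=
          mul_le_mul_of_nonneg_right ((le_abs_self C2).trans (le_max_right _ _))
            (Real.exp_pos _).le

theorem KER2_norm_mul (K : ℝ → ℂ) (z : ℂ) (u : ℝ) :
    ‖K u * cexp (z * u)‖ = ‖K u‖ * Real.exp (z.re * u) := by
  rw [norm_mul, Complex.norm_exp]
  congr 2
  simp [Complex.mul_re]

theorem KER2_integrable {κ : ℝ} {K : ℝ → ℂ} (h : IsKer κ K) {z : ℂ} (hz : -κ < z.re) :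
    Integrable (fun u : ℝ => K u * cexp (z * u)) := by
  obtain ⟨δ, hδ, C, hC, hb⟩ := KER2_dec h hz
  refine ((KER2_int_abs hδ).const_mul C).mono' ?_ (ae_of_all _ fun u => ?_)
  · exact (h.cont.mul (by fun_prop)).aestronglyMeasurable
  · rw [KER2_norm_mul]
    exact hb u

/-- KER2 -/
theorem ker_conv_pr {κ : ℝ} (hκ : 0 < κ) {K₁ K₂ : ℝ → ℂ} (h₁ : IsKer κ K₁) (h₂ : IsKer κ K₂) :
    ∃ K : ℝ → ℂ, IsKer κ K ∧ ∀ z : ℂ, -κ < z.re →
      ∫ u : ℝ, K u * cexp (z * u) = (∫ u : ℝ, K₁ u * cexp (z * u)) * ∫ u : ℝ, K₂ u * cexp (z * u) := by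
  have hc1 := h₁.cont
  have hc2 := h₂.cont
  refine ⟨fun u => ∫ v : ℝ, K₁ v * K₂ (u - v), ⟨?_, fun A hA => ?_⟩, fun z hz => ?_⟩
  · obtain ⟨δ, hδ, C, hC, hb⟩ := KER2_dec h₁ (A := 0) (by linarith)
    obtain ⟨C2, hC2⟩ := h₂.le 0 (by linarith)
    simp only [zero_mul, Real.exp_zero, mul_one, neg_zero] at hb hC2
    refine continuous_of_dominated (bound := fun v => C * Real.exp (-δ * |v|) * |C2|)
      (fun u => ?_) (fun u => ae_of_all _ fun v => ?_) ?_ (ae_of_all _ fun v => ?_)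
    · exact (hc1.mul (hc2.comp (by fun_prop))).aestronglyMeasurable
    · rw [norm_mul]
      exact mul_le_mul (hb v) ((hC2 _).trans (le_abs_self C2)) (norm_nonneg _) (by positivity)
    · exact ((KER2_int_abs hδ).const_mul C).mul_const _
    · exact continuous_const.mul (hc2.comp (by fun_prop))
  · obtain ⟨δ, hδ, C, hC, hb⟩ := KER2_dec h₁ hA
    obtain ⟨C2, hC2⟩ := h₂.le A hA
    refine ⟨(∫ v : ℝ, C * Real.exp (-δ * |v|)) * |C2|, fun u => ?_⟩
    have hpt : ∀ v : ℝ, ‖K₁ v * K₂ (u - v)‖ ≤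
        C * Real.exp (-δ * |v|) * |C2| * Real.exp (-A * u) := by
      intro v
      rw [norm_mul]
      have e1 : Real.exp (-A * (u - v)) = Real.exp (A * v) * Real.exp (-A * u) := by
        rw [← Real.exp_add]; congr 1; ring
      have e2 : ‖K₂ (u - v)‖ ≤ |C2| * (Real.exp (A * v) * Real.exp (-A * u)) := by
        rw [← e1]
        exact (hC2 _).trans (mul_le_mul_of_nonneg_right (le_abs_self C2) (Real.exp_pos _).le)
      calc ‖K₁ v‖ * ‖K₂ (u - v)‖
          ≤ ‖K₁ v‖ * (|C2| * (Real.exp (A * v) * Real.exp (-A * u))) :=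
            mul_le_mul_of_nonneg_left e2 (norm_nonneg _)
        _ = (‖K₁ v‖ * Real.exp (A * v)) * (|C2| * Real.exp (-A * u)) := by ring
        _ ≤ (C * Real.exp (-δ * |v|)) * (|C2| * Real.exp (-A * u)) :=
            mul_le_mul_of_nonneg_right (hb v) (by positivity)
        _ = C * Real.exp (-δ * |v|) * |C2| * Real.exp (-A * u) := by ring
    have hint : Integrable (fun v : ℝ => C * Real.exp (-δ * |v|) * |C2| * Real.exp (-A * u)) :=
      (((KER2_int_abs hδ).const_mul C).mul_const _).mul_const _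
    refine (norm_integral_le_of_norm_le hint (ae_of_all _ hpt)).trans (le_of_eq ?_)
    rw [integral_mul_const, integral_mul_const]
  · have hi1 := KER2_integrable h₁ hz
    have hi2 := KER2_integrable h₂ hz
    have h3 := integral_convolution (μ := volume) (ν := volume) (ContinuousLinearMap.mul ℝ ℂ)
      hi1 hi2
    simp only [ContinuousLinearMap.mul_apply'] at h3
    rw [← h3]
    congr 1
    funext u
    rw [convolution_def, ← integral_mul_const]
    congr 1
    funext v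
    simp only [ContinuousLinearMap.mul_apply']
    have e1 : cexp (z * u) = cexp (z * v) * cexp (z * ((u - v : ℝ) : ℂ)) := by
      rw [← Complex.exp_add]
      congr 1
      push_cast
      ring
    rw [e1]
    ring

end Pool.Agent.G4
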