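import Pool.Agent.Lib_helper38.G4.GD
import Pool.Agent.Lib_helper38.G4.KER1
import Pool.Agent.Lib_helper38.G4.KER2
import Pool.Agent.Lib_helper44.G4.Defs

/-! Block KER (helper38). Cites ker_one, ker_conv, gamma_decay. -/

namespace Pool.Agent.G4

open Complex MeasureTheory Filter Topology Set

variable {m : ℕ}

theorem KER_family {κ : ℝ} (hκ : 0 < κ) : ∀ (n : ℕ) (μ : Fin (n + 1) → ℂ),
    (∀ j, (μ j).re < 1 / 2 - κ) → ∃ K : ℝ → ℂ, IsKer κ K ∧ ∀ z : ℂ, -κ < z.re →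
      ∫ u : ℝ, K u * cexp (z * u) = ∏ j, Gammaℝ (1 / 2 + z - μ j) := by
  intro n
  induction n with
  | zero =>
    intro μ hμ
    obtain ⟨K, hK, hz⟩ := ker_one_pr hκ (hμ 0)
    refine ⟨K, hK, fun z h => ?_⟩
    rw [hz z h]
    simp
  | succ n ih =>
    intro μ hμ
    obtain ⟨K, hK, hz⟩ := ker_one_pr hκ (hμ 0)
    obtain ⟨K', hK', hz'⟩ := ih (fun j => μ j.succ) (fun j => hμ j.succ)
    obtain ⟨K'', hK'', hz''⟩ := ker_conv_pr hκ hK hK'
    refine ⟨K'', hK'', fun z h => ?_⟩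
    rw [hz'' z h, hz z h, hz' z h, Fin.prod_univ_succ (fun j => Gammaℝ (1 / 2 + z - μ j))]

/-- KER -/
theorem exists_kers_pr (S : Sys m) (hm : 1 ≤ m) : Nonempty (Kers S) := by
  obtain ⟨n, rfl⟩ : ∃ n, m = n + 1 := ⟨m - 1, by omega⟩
  -- a common `κ`
  obtain ⟨κ, hκ, hlt⟩ : ∃ κ : ℝ, 0 < κ ∧ ∀ δ j, (S.μ δ j).re < 1 / 2 - κ := by
    obtain ⟨p, -, hp⟩ := Finset.exists_max_image (Finset.univ : Finset (Fin 2 × Fin (n + 1)))
      (fun p => (S.μ p.1 p.2).re) ⟨(0, 0), Finset.mem_univ _⟩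
    refine ⟨(1 / 2 - (S.μ p.1 p.2).re) / 2, ?_, fun δ j => ?_⟩
    · have := S.μ_lt p.1 p.2
      linarith
    · have h1 := hp (δ, j) (Finset.mem_univ _)
      have h2 := S.μ_lt p.1 p.2
      simp only at h1
      linarith
  choose K hK hz using fun δ => KER_family hκ n (S.μ δ) (hlt δ)
  refine ⟨⟨κ, K, hκ, hK, fun δ z h => hz δ z h, fun δ σ hσ => ?_⟩⟩
  have hpos : ∀ j, 0 < 1 / 2 + σ - (S.μ δ j).re := fun j => by
    have := hlt δ j
    linarith
  choose C hC using fun j => gamma_decay_pr (hpos j) (-(S.μ δ j).im)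
  refine ⟨∏ j, |C j|, fun t => ?_⟩
  have hterm : ∀ j, ‖Gammaℝ (1 / 2 + σ + t * I - S.μ δ j)‖ ≤ |C j| / (1 + t ^ 2) := by
    intro j
    have h1 := hC j t
    have h2 : (1 / 2 + (σ : ℂ) + t * I - S.μ δ j) =
        (((1 / 2 + σ - (S.μ δ j).re : ℝ) : ℂ) + (t + ((-(S.μ δ j).im : ℝ) : ℂ)) * I) := by
      apply Complex.ext
      · simp
      · simp only [Complex.sub_im, Complex.add_im, Complex.mul_im, Complex.ofReal_re,
          Complex.ofReal_im, Complex.I_re, Complex.I_im, Complex.add_re]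
        norm_num
        ring
    rw [h2]
    refine h1.trans ?_
    gcongr
    exact le_abs_self _
  have h1 : ‖S.gam δ (1 / 2 + σ + t * I)‖ ≤ ∏ j, (|C j| / (1 + t ^ 2)) := by
    unfold Sys.gam
    rw [norm_prod]
    exact Finset.prod_le_prod (fun j _ => norm_nonneg _) (fun j _ => hterm j)
  refine h1.trans ?_
  rw [Finset.prod_div_distrib, Finset.prod_const, Finset.card_univ, Fintype.card_fin]
  have h2 : 1 ≤ 1 + t ^ 2 := by nlinarith [sq_nonneg t]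
  have h3 : 1 + t ^ 2 ≤ (1 + t ^ 2) ^ (n + 1) := by
    calc 1 + t ^ 2 = (1 + t ^ 2) ^ 1 := (pow_one _).symm
      _ ≤ (1 + t ^ 2) ^ (n + 1) := pow_le_pow_right₀ h2 (by omega)
  have h4 : 0 ≤ ∏ j, |C j| := Finset.prod_nonneg fun j _ => abs_nonneg _
  exact div_le_div_of_nonneg_left h4 (by positivity) h3

end Pool.Agent.G4
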